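import Mathlib
import Pool.Agent.LeoD.FieldStmts
import Pool.Agent.Helper59_LeoC.Sig

/-!
# LEOD, module PAR: the quadratic extensions and the families
-/

set_option autoImplicit false

open NumberField NumberField.InfinitePlace NumberField.mixedEmbedding IsDedekindDomain Module
open Pool.Agent.LeoC Pool.Agent.LeoD

open scoped Classical

namespace Pool.Agent.LeoD.H59

variable {k : Type} [Field k] [NumberField k]

/-- primes above 3. -/
abbrev P3 (k : Type) [Field k] [NumberField k] : Type :=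
  {p : HeightOneSpectrum (𝓞 k) // (3 : 𝓞 k) ∈ p.asIdeal}

lemma finite_P3 (k : Type) [Field k] [NumberField k] : Finite (P3 k) := by
  have h : {v : HeightOneSpectrum (𝓞 k) | v.asIdeal ∣ Ideal.span {(3 : 𝓞 k)}}.Finite := by
    apply Ideal.finite_factors
    rw [Ne, Ideal.zero_eq_bot, Ideal.span_singleton_eq_bot]
    norm_num
  have h2 : {v : HeightOneSpectrum (𝓞 k) | (3 : 𝓞 k) ∈ v.asIdeal}.Finite := by
    refine h.subset fun v hv => ?_
    exact Ideal.dvd_span_singleton.2 hv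
  exact h2.to_subtype

/-- the primes of a set of primes above 3. -/
def EE (S : Set (P3 k)) : Set (HeightOneSpectrum (𝓞 k)) := Subtype.val '' S

lemma mem_EE {S : Set (P3 k)} {p : HeightOneSpectrum (𝓞 k)} (hp : (3 : 𝓞 k) ∈ p.asIdeal) :
    p ∈ EE S ↔ (⟨p, hp⟩ : P3 k) ∈ S := by
  constructor
  · rintro ⟨q, hq, rfl⟩
    exact hq
  · intro h
    exact ⟨_, h, rfl⟩

/-- the sign pattern. -/
lemma exists_sgn (m : k) (hm : m ≠ 0) : Sgn {w | (mixedEmbedding k m).1 w < 0}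
    (mixedEmbedding k m) := by
  have h0 : ∀ w : {w : InfinitePlace k // IsReal w}, (mixedEmbedding k m).1 w ≠ 0 := by
    intro w
    rw [mixedEmbedding_apply_isReal]
    exact (map_ne_zero (embedding_of_isReal w.2)).2 hm
  refine ⟨fun w => ⟨fun h => h, fun h => ?_⟩, fun w => ?_⟩
  · rw [Set.mem_ofPred_eq, not_lt] at h
    exact lt_of_le_of_ne h (h0 w).symm
  · rw [mixedEmbedding_apply_isComplex]
    exact (map_ne_zero w.1.embedding).2 hm

lemma sgn_of_quadN {N : Set {w : InfinitePlace k // IsReal w}} {K : Type} [Field K]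
    [NumberField K] [Algebra k K] (hK : QuadN N K) {m : k} {r : K}
    (hr : r ^ 2 = algebraMap k K (3 * m)) (hsq : ∀ x : k, x ^ 2 ≠ 3 * m) :
    Sgn N (mixedEmbedding k m) := by
  have hm : m ≠ 0 := by
    rintro rfl
    exact hsq 0 (by simp)
  have h1 := exists_sgn m hm
  have h2 := Pool.Agent.LeoC.H59.quadN hK.quad hr hsq h1
  have h3 : N = {w | (mixedEmbedding k m).1 w < 0} := by
    ext w
    have h4 := hK.ram w
    have h5 := h2.ram w
    tauto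
  rw [h3]
  exact h1

lemma unit_mem (η : (𝓞 k)ˣ) (m : 𝓞 k) (p : HeightOneSpectrum (𝓞 k)) :
    (η : 𝓞 k) ^ 2 * m ∈ p.asIdeal ↔ m ∈ p.asIdeal := by
  constructor
  · intro h
    rcases p.isPrime.mem_or_mem h with h | h
    · exfalso
      exact p.isPrime.ne_top ((Ideal.eq_top_iff_one _).2 (by
        have := Ideal.mul_mem_left _ ((η⁻¹ : (𝓞 k)ˣ) : 𝓞 k) (p.isPrime.mem_of_pow_mem 2 h)
        rwa [Units.inv_mul] at this))
    · exact h
  · exact Ideal.mul_mem_left _ _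

lemma fund_unit (hfnb : FnbStmt) (η : (𝓞 k)ˣ) (m : 𝓞 k) (I : Ideal (𝓞 k)) (h : Fund I m) :
    Fund I ((η : 𝓞 k) ^ 2 * m) := by
  obtain ⟨-, -, -, -, hscal, -, -⟩ := hfnb k
  refine hscal I I m _ (η : 𝓞 k) 1 (Units.ne_zero η) one_ne_zero ?_ (by ring) h
  rw [Ideal.span_singleton_eq_top.2 η.isUnit, Ideal.span_singleton_eq_top.2 isUnit_one]

lemma nr_eq (hevs : EvsStmt) (m : 𝓞 k) :
    nr (av (mixedEmbedding k (m : k))) = ((Algebra.norm ℤ m).natAbs : ℝ) := by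
  obtain ⟨-, -, -, -, -, -, h, -, -⟩ := hevs k
  rw [h, Nat.cast_natAbs, Int.cast_abs, ← Algebra.coe_norm_int]
  norm_cast

/-- the discriminant of the field of `m`. -/
lemma discr_eq (hdsk : DskStmt) {T : Set (HeightOneSpectrum (𝓞 k)) → Ideal (𝓞 k)}
    (hT : ∀ E, T E ≠ ⊥ ∧ ∀ (I : Ideal (𝓞 k)) (m : 𝓞 k),
      (∀ p : HeightOneSpectrum (𝓞 k), (3 : 𝓞 k) ∈ p.asIdeal → ¬ I ≤ p.asIdeal) → Fund I m →
      (∀ p : HeightOneSpectrum (𝓞 k), (3 : 𝓞 k) ∈ p.asIdeal → (m ∈ p.asIdeal ↔ p ∈ E)) →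
      Fund (I * T E) (-(3 * m)))
    (B : BFr k) (hB : ∀ p : HeightOneSpectrum (𝓞 k), (3 : 𝓞 k) ∈ p.asIdeal → ¬ B.cc ≤ p.asIdeal)
    (E : Set (HeightOneSpectrum (𝓞 k))) (m : 𝓞 k) (hF : Fund B.cc m)
    (hE : ∀ p : HeightOneSpectrum (𝓞 k), (3 : 𝓞 k) ∈ p.asIdeal → (m ∈ p.asIdeal ↔ p ∈ E))
    {K : Type} [Field K] [NumberField K] [Algebra k K] {r : K} (h2 : finrank k K = 2)
    (hr : r ^ 2 = algebraMap k K (3 * (m : k))) (hsq : ∀ x : k, x ^ 2 ≠ 3 * (m : k)) :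
    ((discr K).natAbs : ℝ) * ((Ideal.absNorm B.cc : ℝ) ^ 2 * (Ideal.absNorm (T E) : ℝ) ^ 2) =
      ((discr k).natAbs : ℝ) ^ 2 * 3 ^ finrank ℚ k * ((Algebra.norm ℤ m).natAbs : ℝ) := by
  have h1 := (hT E).2 B.cc m hB hF hE
  have h3 : ((3 * m : 𝓞 k) : k) = 3 * (m : k) := by
    have h : algebraMap (𝓞 k) k (3 * m) = 3 * algebraMap (𝓞 k) k m := by
      rw [map_mul, map_ofNat]
    exact h
  have h4 := hdsk k K (B.cc * T E) (3 * m) r h2 (by rw [hr, h3]) (by rw [h3]; exact hsq) h1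
  rw [map_mul, map_mul, Int.natAbs_mul] at h4
  have h5 : (Algebra.norm ℤ (3 : 𝓞 k)).natAbs = 3 ^ finrank ℚ k := by
    have h6 : (3 : 𝓞 k) = algebraMap ℤ (𝓞 k) 3 := by simp
    rw [h6, Algebra.norm_algebraMap, RingOfIntegers.rank, Int.natAbs_pow]
    rfl
  rw [h5] at h4
  have h6 := congrArg (Nat.cast : ℕ → ℝ) h4
  push_cast at h6
  rw [mul_pow] at h6
  rw [h6]
  push_cast
  ring

/-- **PAR**. -/
theorem par (hfnb : FnbStmt) (htw : Tw3Stmt) (hrps : RpsStmt) (hprm : PrmStmt) (hdsk : DskStmt)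
    (hqua : QuaStmt) (hcof : CofStmt) (hevs : EvsStmt) : ParStmt := by
  intro k _ _ Φ N hfin
  obtain ⟨J₀, _, B₀, hne, hcc, hcls⟩ := hrps k
  haveI := finite_P3 k
  haveI : Fintype (P3 k) := Fintype.ofFinite _
  choose T hT using htw k
  obtain ⟨w, hw, hcone⟩ := hcof k
  obtain ⟨hex, huni⟩ := hprm k J₀ B₀ hcls
  obtain ⟨hq1, hq2, hq3⟩ := hqua k
  have hdk : (0 : ℝ) < ((discr k).natAbs : ℝ) := by
    have : (discr k).natAbs ≠ 0 := Int.natAbs_ne_zero.mpr (discr_ne_zero k)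
    positivity
  have hNI : ∀ I : Ideal (𝓞 k), I ≠ ⊥ → (0 : ℝ) < (Ideal.absNorm I : ℝ) := by
    intro I hI
    have : Ideal.absNorm I ≠ 0 := by rwa [Ne, Ideal.absNorm_eq_zero_iff]
    positivity
  set ρ : J₀ × Set (P3 k) → ℝ := fun j =>
    (Ideal.absNorm (B₀ j.1).cc : ℝ) ^ 2 * (Ideal.absNorm (T (EE j.2)) : ℝ) ^ 2 /
      (((discr k).natAbs : ℝ) ^ 2 * 3 ^ finrank ℚ k) with hρ
  have hρ0 : ∀ j, 0 < ρ j := by
    intro j
    have h1 := hNI _ (hcc j.1).1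
    have h2 := hNI _ (hT (EE j.2)).1
    simp only [hρ]
    positivity
  -- the size of the discriminant
  have hdisc : ∀ (j : J₀ × Set (P3 k)) (m : 𝓞 k) (K : Type) [Field K] [NumberField K] [Algebra k K]
      (r : K) (X : ℝ), Fund (B₀ j.1).cc m →
      (∀ p : HeightOneSpectrum (𝓞 k), (3 : 𝓞 k) ∈ p.asIdeal → (m ∈ p.asIdeal ↔ p ∈ EE j.2)) →
      finrank k K = 2 → r ^ 2 = algebraMap k K (3 * (m : k)) → (∀ x : k, x ^ 2 ≠ 3 * (m : k)) →
      (nr (av (mixedEmbedding k (m : k))) ≤ ρ j * X ↔ ((discr K).natAbs : ℝ) ≤ X) := by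
    intro j m K _ _ _ r X hF hE h2 hr hsq
    have h3 := discr_eq hdsk hT (B₀ j.1) (hcc j.1).2 (EE j.2) m hF hE h2 hr hsq
    rw [nr_eq hevs]
    have h4 := hNI _ (hcc j.1).1
    have h5 := hNI _ (hT (EE j.2)).1
    have h6 : ((Algebra.norm ℤ m).natAbs : ℝ) = ρ j * ((discr K).natAbs : ℝ) := by
      simp only [hρ]
      rw [div_mul_eq_mul_div, eq_div_iff (by positivity)]
      linarith
    rw [h6]
    exact mul_le_mul_iff_right₀ (hρ0 j)
  -- the key: the fibre of a field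
  have key : ∀ (X : ℝ) (K : IntermediateField k (AlgebraicClosure k)), K ∈ Qx k N X →
      ∃ (j₁ : J₀ × Set (P3 k)) (m₀ : 𝓞 k), m₀ ≠ 0 ∧ ∀ (j : J₀ × Set (P3 k)) (m : 𝓞 k),
        (m ∈ Fam Φ N (B₀ j.1) (EE j.2) (ρ j * X) ∧ (∀ x : k, x ^ 2 ≠ 3 * (m : k)) ∧
          sqF (3 * (m : k)) = K) ↔
        (j = j₁ ∧ m ∈ {m' : 𝓞 k | (∃ η : (𝓞 k)ˣ, m' = (η : 𝓞 k) ^ 2 * m₀) ∧
          av (mixedEmbedding k (m' : k)) ∈ Φ.F}) := by
    intro X K hK
    obtain ⟨hNF, hQ, hX⟩ := hK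
    obtain ⟨a, ha, hKa⟩ := hq1 K hQ.quad
    have ha0 : a ≠ 0 := fun h => ha 0 (by rw [h]; simp)
    obtain ⟨j₀, m₀, t₀, ht₀, hm₀, hF₀⟩ := hex (3 * a) (by simpa using ha0)
    have hm0 : m₀ ≠ 0 := by
      rintro rfl
      apply mul_ne_zero (pow_ne_zero 2 ht₀) (mul_ne_zero three_ne_zero ha0)
      rw [← hm₀]
      simp
    have hm0k : (m₀ : k) ≠ 0 := by simpa using hm0
    refine ⟨(j₀, {p : P3 k | m₀ ∈ p.1.asIdeal}), m₀, hm0, ?_⟩
    rintro ⟨j, S⟩ m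
    constructor
    · rintro ⟨⟨h1, h2, h3, h4, h5⟩, hsq, hf⟩
      rw [hKa] at hf
      obtain ⟨t, ht⟩ := (hq3 _ _ hsq ha).1 hf
      have ht0 : t ≠ 0 := by
        rintro rfl
        apply ha0
        rw [ht]
        simp
      have hrel : (m : k) = ((3 * t₀ * t)⁻¹ ) ^ 2 * (m₀ : k) := by
        rw [hm₀, ht]
        field_simp
      obtain ⟨hj, η, hη⟩ := huni j₀ j m₀ m _ hF₀ h4 hrel
      subst hj
      have hS : S = {p : P3 k | m₀ ∈ p.1.asIdeal} := by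
        ext p
        have h6 := h5 p.1 p.2
        rw [mem_EE p.2, hη, unit_mem] at h6
        rw [Set.mem_ofPred_eq, h6]
      subst hS
      exact ⟨rfl, ⟨η, hη⟩, h2⟩
    · rintro ⟨hj, ⟨η, hη⟩, hav⟩
      obtain ⟨hj1, hj2⟩ := Prod.mk.inj hj
      subst hj1
      subst hj2
      have hηk : ((η : 𝓞 k) : k) ≠ 0 := by simp
      have hmk : (m : k) = ((η : 𝓞 k) : k) ^ 2 * (t₀ ^ 2 * (3 * a)) := by
        rw [hη, ← hm₀]
        push_cast
        rfl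
      have hsq : ∀ x : k, x ^ 2 ≠ 3 * (m : k) := by
        intro x hx
        apply ha (x / (3 * t₀ * ((η : 𝓞 k) : k)))
        rw [div_pow, hx, hmk]
        field_simp
      have hFm : Fund (B₀ j).cc m := by
        rw [hη]
        exact fund_unit hfnb η m₀ _ hF₀
      have hEm : ∀ p : HeightOneSpectrum (𝓞 k), (3 : 𝓞 k) ∈ p.asIdeal →
          (m ∈ p.asIdeal ↔ p ∈ EE {p : P3 k | m₀ ∈ p.1.asIdeal}) := by
        intro p hp
        rw [mem_EE hp, hη, unit_mem, Set.mem_ofPred_eq]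
      have hKm : sqF (3 * (m : k)) = K := by
        rw [hKa]
        apply (hq3 _ _ hsq ha).2
        refine ⟨(3 * t₀ * ((η : 𝓞 k) : k))⁻¹, ?_⟩
        rw [hmk]
        field_simp
      obtain ⟨hNFm, h2m, r, hr⟩ := hq2 _ hsq
      subst hKm
      have hsgn := sgn_of_quadN hQ hr hsq
      refine ⟨⟨hsgn, hav, ?_, hFm, hEm⟩, hsq, rfl⟩
      exact (hdisc (j, {p : P3 k | m₀ ∈ p.1.asIdeal}) m _ r X hFm hEm h2m hr hsq).2 hX
  -- the fields of the family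
  have hmaps : ∀ (X : ℝ) (j : J₀ × Set (P3 k)) (m : 𝓞 k),
      m ∈ Fam Φ N (B₀ j.1) (EE j.2) (ρ j * X) → (∀ x : k, x ^ 2 ≠ 3 * (m : k)) →
      sqF (3 * (m : k)) ∈ Qx k N X := by
    intro X j m hm hsq
    obtain ⟨hNFm, h2m, r, hr⟩ := hq2 _ hsq
    obtain ⟨h1, h2, h3, h4, h5⟩ := hm
    exact ⟨hNFm, Pool.Agent.LeoC.H59.quadN h2m hr hsq h1,
      (hdisc j m _ r X h4 h5 h2m hr hsq).1 h3⟩
  refine ⟨J₀ × Set (P3 k), inferInstance, fun j => B₀ j.1, fun j => EE j.2, ρ, w,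
    ⟨(hne.some, ∅)⟩, hw, hρ0, fun X => ?_⟩
  have hQfin : (Qx k N X).Finite := by
    have h1 : (⋃ j : J₀ × Set (P3 k), (fun m : 𝓞 k => sqF (3 * (m : k))) ''
        (Fam Φ N (B₀ j.1) (EE j.2) (ρ j * X))).Finite :=
      Set.finite_iUnion fun j => (hfin _ _ _).image _
    refine h1.subset fun K hK => ?_
    obtain ⟨j₁, m₀, hm0, hkey⟩ := key X K hK
    have h2 := hcone Φ m₀ hm0
    obtain ⟨m, hm⟩ := Set.nonempty_of_ncard_ne_zero (by rw [h2]; exact hw.ne')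
    obtain ⟨h3, h4, h5⟩ := (hkey j₁ m).2 ⟨rfl, hm⟩
    rw [Set.mem_iUnion]
    exact ⟨j₁, m, h3, h5⟩
  refine ⟨hQfin, fun P => ?_⟩
  -- finsets
  set A : J₀ × Set (P3 k) → Finset (𝓞 k) := fun j =>
    (hfin (B₀ j.1) (EE j.2) (ρ j * X)).toFinset.filter fun m =>
      (∀ x : k, x ^ 2 ≠ 3 * (m : k)) ∧ P (sqF (3 * (m : k))) with hA
  set Q : Finset (IntermediateField k (AlgebraicClosure k)) := hQfin.toFinset.filter P with hQ
  have hQcard : {K | K ∈ Qx k N X ∧ P K}.ncard = Q.card := by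
    rw [← Set.ncard_coe_finset]
    congr 1
    ext K
    simp [hQ]
  have hAcard : ∀ j, {m | m ∈ Fam Φ N (B₀ j.1) (EE j.2) (ρ j * X) ∧
      (∀ x : k, x ^ 2 ≠ 3 * (m : k)) ∧ P (sqF (3 * (m : k)))}.ncard = (A j).card := by
    intro j
    rw [← Set.ncard_coe_finset]
    congr 1
    ext m
    simp [hA]
  rw [hQcard]
  simp_rw [hAcard]
  have hfib : ∀ j, (A j).card = ∑ K ∈ Q, ((A j).filter fun m : 𝓞 k => sqF (3 * (m : k)) = K).card := by
    intro j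
    apply Finset.card_eq_sum_card_fiberwise
    intro m hm
    simp only [hA, Finset.coe_filter, Set.Finite.mem_toFinset, Set.mem_ofPred_eq] at hm
    simp only [hQ, Finset.coe_filter, Set.Finite.mem_toFinset, Set.mem_ofPred_eq]
    exact ⟨hmaps X j m hm.1 hm.2.1, hm.2.2⟩
  simp_rw [hfib]
  rw [Finset.sum_comm, mul_comm]
  symm
  apply Finset.sum_const_nat
  intro K hK
  simp only [hQ, Finset.mem_filter, Set.Finite.mem_toFinset] at hK
  obtain ⟨j₁, m₀, hm0, hkey⟩ := key X K hK.1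
  rw [Finset.sum_eq_single j₁]
  · rw [← hcone Φ m₀ hm0, ← Set.ncard_coe_finset]
    congr 1
    ext m
    have h1 := hkey j₁ m
    simp only [hA, Finset.coe_filter, Finset.mem_filter, Set.Finite.mem_toFinset,
      Set.mem_ofPred_eq] at h1 ⊢
    constructor
    · rintro ⟨⟨h2, h3, h4⟩, h5⟩
      exact (h1.1 ⟨h2, h3, h5⟩).2
    · intro h2
      obtain ⟨h3, h4, h5⟩ := h1.2 ⟨trivial, h2⟩
      exact ⟨⟨h3, h4, by rw [h5]; exact hK.2⟩, h5⟩
  · intro j _ hj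
    rw [Finset.card_eq_zero, Finset.filter_eq_empty_iff]
    intro m hm h5
    simp only [hA, Finset.mem_filter, Set.Finite.mem_toFinset] at hm
    exact hj ((hkey j m).1 ⟨hm.1, hm.2.1, h5⟩).1
  · intro h
    exact absurd (Finset.mem_univ _) h

end Pool.Agent.LeoD.H59
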