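import Mathlib
import Pool.Agent.LeoD.TowStmts
import Pool.Agent.Helper76_LeoD.Eta
import Pool.Agent.Helper79_LeoK.TwiB

/-! Squad LEOD, module LTT: the local normal form. -/

set_option autoImplicit false

open NumberField IsDedekindDomain Module
open Pool.Agent.Helper85_Leo Pool.Agent.LeoK Pool.Agent.LeoG Pool.Agent.LeoC Pool.Agent.LeoD
open Pool.Agent.Leo3 (Om InLoc FixF)

namespace Pool.Agent.LeoD.H59

/-- root of unity of 3-power order -/
def Tr3 (a : Om) : Prop := ∃ j : ℕ, a ^ 3 ^ j = 1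

lemma tr3_mul {a b : Om} (ha : Tr3 a) (hb : Tr3 b) : Tr3 (a * b) := by
  obtain ⟨i, hi⟩ := ha
  obtain ⟨j, hj⟩ := hb
  refine ⟨i + j, ?_⟩
  rw [mul_pow, pow_add, pow_mul, hi, one_pow, one_mul, mul_comm (3 ^ i), pow_mul, hj, one_pow]

lemma tr3_inv {a : Om} (ha : Tr3 a) : Tr3 a⁻¹ := by
  obtain ⟨i, hi⟩ := ha
  exact ⟨i, by rw [inv_pow, hi, inv_one]⟩

lemma tr3_map {a : Om} (ha : Tr3 a) (ρ : Om ≃ₐ[ℚ_[3]] Om) : Tr3 (ρ a) := by
  obtain ⟨i, hi⟩ := ha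
  exact ⟨i, by rw [← map_pow, hi, map_one]⟩

lemma tr3_ne {a : Om} (ha : Tr3 a) : a ≠ 0 := by
  obtain ⟨i, hi⟩ := ha
  rintro rfl
  rw [zero_pow (pow_ne_zero _ (by norm_num))] at hi
  exact zero_ne_one hi

lemma tr3_root {a : Om} (ha : Tr3 (a ^ 3)) : Tr3 a := by
  obtain ⟨i, hi⟩ := ha
  refine ⟨i + 1, ?_⟩
  rw [pow_succ, mul_comm (3 ^ i), pow_mul]
  exact hi

lemma om_ne {ω : Om} (hω : ω ^ 2 = -3) : ω ≠ 0 ∧ ω ≠ -ω := by
  have h0 : ω ≠ 0 := by
    rintro rfl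
    norm_num at hω
  refine ⟨h0, fun h => ?_⟩
  have h3 : (2 : Om) * ω = 0 := by linear_combination h
  rcases mul_eq_zero.mp h3 with h4 | h4
  · exact two_ne_zero h4
  · exact h0 h4

/-- an automorphism fixing a nontrivial root of unity fixes `ω` -/
lemma t1 {a ω : Om} (ha : Tr3 a) (ha1 : a ≠ 1) (hω : ω ^ 2 = -3) (ρ : Om ≃ₐ[ℚ_[3]] Om)
    (h : ρ a = a) : ρ ω = ω := by
  obtain ⟨n, hn⟩ := H76.om_of_tors ha ha1 hω
  rcases hn with hn | hn
  · rw [hn, map_sub, map_inv₀, map_pow, h]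
  · rw [hn, map_neg, map_sub, map_inv₀, map_pow, h]

/-- an automorphism inverting a nontrivial root of unity maps `ω` to `-ω` -/
lemma t2 {a ω : Om} (ha : Tr3 a) (ha1 : a ≠ 1) (hω : ω ^ 2 = -3) (ρ : Om ≃ₐ[ℚ_[3]] Om)
    (h : ρ a = a⁻¹) : ρ ω = -ω := by
  obtain ⟨n, hn⟩ := H76.om_of_tors ha ha1 hω
  rcases hn with hn | hn
  · rw [hn, map_sub, map_inv₀, map_pow, h, inv_pow, inv_inv, neg_sub]
  · rw [hn, map_neg, map_sub, map_inv₀, map_pow, h, inv_pow, inv_inv]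
    ring

theorem ltt (qlo : QloStmt) : LttStmt := by
  intro k K _ _ _ _ _ m s c hQ φ ω τ hω hG z ν hν hzν hLT
  obtain ⟨hω0, hωn⟩ := om_ne hω
  obtain ⟨ψ, hψ⟩ : ∃ ψ : k →+* Om, ψ = φ.comp (algebraMap k K) := ⟨_, rfl⟩
  rw [← hψ] at hG ⊢
  have hψa : ∀ x : k, φ (algebraMap k K x) = ψ x := fun x => by rw [hψ]; rfl
  have hs0 : (s : K) ≠ 0 := by
    intro h0
    have h1 := hQ.sq
    rw [h0, zero_pow (by norm_num)] at h1
    have h2 : (3 * (m : k)) = 0 := (map_eq_zero (algebraMap k K)).mp h1.symm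
    exact hQ.nsq 0 (by rw [h2]; norm_num)
  have hφs : φ (s : K) ≠ 0 := (map_ne_zero φ).2 hs0
  have hcs : c (s : K) ≠ (s : K) := by
    intro h
    rw [hQ.conj] at h
    have h3 : (2 : K) * s = 0 := by linear_combination -h
    rcases mul_eq_zero.mp h3 with h4 | h4
    · exact two_ne_zero h4
    · exact hs0 h4
  have hc1 : c ≠ 1 := by
    rintro rfl
    exact hcs rfl
  have hcc : ∀ x : K, c (c x) = x := by
    intro x
    have fkK : FiniteDimensional k K := Module.Finite.of_restrictScalars_finite ℚ k K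
    have h := congrArg (fun f : K ≃ₐ[k] K => f x) (LeoK.H79.quad_sq hQ.two c)
    rw [pow_two] at h
    exact h
  have hν' : ψ ν ≠ 0 := (map_ne_zero ψ).2 hν
  have hz0 : z ≠ 0 := by
    rintro rfl
    rw [zero_mul] at hzν
    exact pow_ne_zero 3 ((map_ne_zero (algebraMap k K)).2 hν) hzν.symm
  have hφz : φ z ≠ 0 := (map_ne_zero φ).2 hz0
  have hprod : φ z * φ (c z) = ψ ν ^ 3 := by
    rw [← map_mul, hzν, map_pow, hψa]
  have hq := fun (ρ : Om ≃ₐ[ℚ_[3]] Om) (hρ : FixF ψ ρ) => qlo k K c hQ.two hc1 φ ρ (hψ ▸ hρ)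
  obtain ⟨y₁, η₁, hy₁, hη₁, hη₁t, hz₁⟩ := hLT φ
  have hη0 : η₁ ≠ 0 := tr3_ne hη₁t
  have hy0 : y₁ ≠ 0 := by
    rintro rfl
    rw [zero_pow (by norm_num), mul_zero] at hz₁
    exact hφz hz₁
  have hfix : ∀ ρ, FixF φ ρ → FixF ψ ρ := by
    intro ρ hρ x
    rw [← hψa]
    exact hρ _
  -- the main claim
  have hmain : ∃ t₁ t₂ : Om, t₁ * t₂ * ψ ν = 1 ∧
      (∀ σ : Om ≃ₐ[ℚ_[3]] Om, FixF ψ σ → ((∀ x, σ (φ x) = φ x) → σ t₁ = t₁ ∧ σ t₂ = t₂) ∧
        ((∀ x, σ (φ x) = φ (c x)) → σ t₁ = t₂ ∧ σ t₂ = t₁)) ∧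
      (φ z * t₁ ^ 3 = 1 ∨ ∃ μ : Om, InLoc ψ μ ∧
        ((φ (s : K) = μ * ω ∧ φ z * t₁ ^ 3 = τ) ∨ (φ (s : K) = -(μ * ω) ∧ φ z * t₁ ^ 3 = τ⁻¹))) := by
    -- the end of the argument
    have hend : ∀ (μ g t₁ : Om), InLoc ψ μ → φ (s : K) = μ * ω → φ z * t₁ ^ 3 = η₁ / g ^ 3 →
        g ≠ 0 → (η₁ = g ^ 3 ∨ η₁ = g ^ 3 * τ ∨ η₁ = g ^ 3 * τ⁻¹) →
        (φ z * t₁ ^ 3 = 1 ∨ ∃ μ : Om, InLoc ψ μ ∧
        ((φ (s : K) = μ * ω ∧ φ z * t₁ ^ 3 = τ) ∨
          (φ (s : K) = -(μ * ω) ∧ φ z * t₁ ^ 3 = τ⁻¹))) := by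
      intro μ g t₁ hμ hμs ht₁ hg hcase
      have hg3 : g ^ 3 ≠ 0 := pow_ne_zero 3 hg
      rcases hcase with h | h | h
      · left
        rw [ht₁, h, div_self hg3]
      · right
        refine ⟨μ, hμ, Or.inl ⟨hμs, ?_⟩⟩
        rw [ht₁, h, mul_comm, mul_div_assoc, div_self hg3, mul_one]
      · right
        refine ⟨-μ, fun ρ hρ => by rw [map_neg, hμ ρ hρ], Or.inr ⟨?_, ?_⟩⟩
        · rw [neg_mul, neg_neg, hμs]
        · rw [ht₁, h, mul_comm, mul_div_assoc, div_self hg3, mul_one]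
    by_cases hB : ∀ σ : Om ≃ₐ[ℚ_[3]] Om, FixF ψ σ → FixF φ σ
    · -- the completion of `K` is that of `k`
      have hin : ∀ t, InLoc φ t → InLoc ψ t := fun t ht σ hσ => ht σ (hB σ hσ)
      have hno : ∀ σ : Om ≃ₐ[ℚ_[3]] Om, FixF ψ σ → ¬ ∀ x, σ (φ x) = φ (c x) := by
        intro σ hσ h
        apply hcs
        apply φ.injective
        rw [← h, hB σ hσ]
      have hinv : ∀ t₁, InLoc ψ t₁ → ∀ σ : Om ≃ₐ[ℚ_[3]] Om, FixF ψ σ →
          ((∀ x, σ (φ x) = φ x) → σ t₁ = t₁ ∧ σ (1 / (t₁ * ψ ν)) = 1 / (t₁ * ψ ν)) ∧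
          ((∀ x, σ (φ x) = φ (c x)) → σ t₁ = 1 / (t₁ * ψ ν) ∧ σ (1 / (t₁ * ψ ν)) = t₁) := by
        intro t₁ ht₁ σ hσ
        refine ⟨fun _ => ⟨ht₁ σ hσ, ?_⟩, fun h => absurd h (hno σ hσ)⟩
        rw [map_div₀, map_one, map_mul, ht₁ σ hσ, hσ]
      by_cases hη1 : η₁ = 1
      · refine ⟨1 / y₁, 1 / (1 / y₁ * ψ ν), ?_, hinv _ ?_, Or.inl ?_⟩
        · field_simp
        · intro σ hσ
          rw [map_div₀, map_one, hin _ hy₁ σ hσ]
        · rw [hz₁, hη1]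
          field_simp
      · have hωl : InLoc ψ ω := fun σ hσ => t1 hη₁t hη1 hω σ (hin _ hη₁ σ hσ)
        have htor : Tor ψ ω η₁ := ⟨hη₁t, fun σ hσ _ => hin _ hη₁ σ hσ, fun σ hσ h =>
          absurd ((hωl σ hσ).symm.trans h) hωn⟩
        obtain ⟨g, hg, hgc⟩ := hG.2 η₁ htor
        have hg0 : g ≠ 0 := tr3_ne hg.ord
        have hgl : InLoc ψ g := fun σ hσ => hg.fix σ hσ (hωl σ hσ)
        refine ⟨1 / (y₁ * g), 1 / (1 / (y₁ * g) * ψ ν), ?_, hinv _ ?_,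
          hend (φ s / ω) g _ ?_ ?_ ?_ hg0 hgc⟩
        · field_simp
        · intro σ hσ
          rw [map_div₀, map_one, map_mul, hin _ hy₁ σ hσ, hgl σ hσ]
        · intro σ hσ
          rw [map_div₀, hB σ hσ, hωl σ hσ]
        · rw [div_mul_cancel₀ _ hω0]
        · rw [hz₁]
          field_simp
    · push Not at hB
      obtain ⟨ρ, hρ, hρn⟩ := hB
      have hρc : ∀ x, ρ (φ x) = φ (c x) := by
        rcases (hq ρ hρ).1 with h | h
        · exact absurd h hρn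
        · exact h
      have hρl : ∀ t, InLoc φ t → InLoc φ (ρ t) := (hq ρ hρ).2
      have hρρ : ∀ t, InLoc φ t → ρ (ρ t) = t := by
        intro t ht
        exact ht (ρ.trans ρ) (fun x => by
          rw [AlgEquiv.trans_apply, hρc, hρc, hcc])
      have hσρ : ∀ (σ : Om ≃ₐ[ℚ_[3]] Om), (∀ x, σ (φ x) = φ (c x)) → ∀ t, InLoc φ t →
          σ t = ρ t := by
        intro σ hσ t ht
        have h := ht (σ.trans ρ.symm) (fun x => by
          rw [AlgEquiv.trans_apply, hσ, ← hρc, AlgEquiv.symm_apply_apply])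
        rw [AlgEquiv.trans_apply, AlgEquiv.symm_apply_eq] at h
        exact h
      have hinv : ∀ t₁, InLoc φ t₁ → ∀ σ : Om ≃ₐ[ℚ_[3]] Om, FixF ψ σ →
          ((∀ x, σ (φ x) = φ x) → σ t₁ = t₁ ∧ σ (ρ t₁) = ρ t₁) ∧
          ((∀ x, σ (φ x) = φ (c x)) → σ t₁ = ρ t₁ ∧ σ (ρ t₁) = t₁) := by
        intro t₁ ht₁ σ hσ
        refine ⟨fun h => ⟨ht₁ σ h, hρl _ ht₁ σ h⟩, fun h => ⟨hσρ σ h _ ht₁, ?_⟩⟩
        rw [hσρ σ h _ (hρl _ ht₁), hρρ _ ht₁]
      have hρy : ρ y₁ ≠ 0 := (map_ne_zero ρ).2 hy0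
      obtain ⟨θ, hθ⟩ : ∃ θ, θ = ψ ν / (y₁ * ρ y₁) := ⟨_, rfl⟩
      have hθ3 : θ ^ 3 = η₁ * ρ η₁ := by
        have h1 : φ (c z) = ρ η₁ * ρ y₁ ^ 3 := by
          rw [← hρc, hz₁, map_mul, map_pow]
        rw [hθ, div_pow, ← hprod, h1, hz₁]
        field_simp
      have hθt : Tr3 θ := by
        apply tr3_root
        rw [hθ3]
        exact tr3_mul hη₁t (tr3_map hη₁t ρ)
      have hθ0 : θ ≠ 0 := tr3_ne hθt
      have hθl : InLoc φ θ := by
        intro σ hσ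
        rw [hθ, map_div₀, map_mul, hfix σ hσ, hy₁ σ hσ, hρl _ hy₁ σ hσ]
      have hρθ : ρ θ = θ := by
        rw [hθ, map_div₀, map_mul, hρ, hρρ _ hy₁, mul_comm (ρ y₁)]
      have hνθ : ψ ν = θ * (y₁ * ρ y₁) := by
        rw [hθ]
        field_simp
      by_cases hη1 : η₁ = 1
      · have hθ31 : θ ^ 3 = 1 := by rw [hθ3, hη1, map_one, one_mul]
        refine ⟨θ / y₁, ρ (θ / y₁), ?_, hinv _ ?_, Or.inl ?_⟩
        · rw [map_div₀, hρθ, hνθ]
          have : θ / y₁ * (θ / ρ y₁) * (θ * (y₁ * ρ y₁)) = θ ^ 3 := by field_simp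
          rw [this, hθ31]
        · intro σ hσ
          rw [map_div₀, hθl σ hσ, hy₁ σ hσ]
        · rw [hz₁, hη1, div_pow, hθ31]
          field_simp
      · have hωφ : InLoc φ ω := fun σ hσ => t1 hη₁t hη1 hω σ (hη₁ σ hσ)
        have hρω : ρ ω = ω ∨ ρ ω = -ω := by
          apply sq_eq_sq_iff_eq_or_eq_neg.1
          rw [← map_pow, hω, map_neg, map_ofNat]
        rcases hρω with hρω | hρω
        · -- `ρ η₁ = η₁`
          have hξ : ρ η₁ * η₁⁻¹ = 1 := by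
            by_contra hne
            have h1 := t2 (tr3_mul (tr3_map hη₁t ρ) (tr3_inv hη₁t)) hne hω ρ (by
              rw [map_mul, map_inv₀, hρρ _ hη₁, mul_inv, inv_inv, mul_comm])
            exact hωn (hρω.symm.trans h1)
          have hρη : ρ η₁ = η₁ := (mul_inv_eq_one₀ hη0).1 hξ
          rw [hρη] at hθ3
          refine ⟨θ / (y₁ * η₁), ρ (θ / (y₁ * η₁)), ?_, hinv _ ?_, Or.inl ?_⟩
          · rw [map_div₀, map_mul, hρθ, hρη, hνθ]
            have : θ / (y₁ * η₁) * (θ / (ρ y₁ * η₁)) * (θ * (y₁ * ρ y₁)) =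
              θ ^ 3 / (η₁ * η₁) := by field_simp
            rw [this, hθ3, div_self (mul_ne_zero hη0 hη0)]
          · intro σ hσ
            rw [map_div₀, map_mul, hθl σ hσ, hy₁ σ hσ, hη₁ σ hσ]
          · rw [hz₁, div_pow, hθ3]
            field_simp
        · -- `ρ η₁ = η₁⁻¹`
          have hξ : η₁ * ρ η₁ = 1 := by
            by_contra hne
            have h1 := t1 (tr3_mul hη₁t (tr3_map hη₁t ρ)) hne hω ρ (by
              rw [map_mul, hρρ _ hη₁, mul_comm])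
            exact hωn (h1.symm.trans hρω)
          have hρη : ρ η₁ = η₁⁻¹ := eq_inv_of_mul_eq_one_right hξ
          have hθ1 : θ = 1 := by
            by_contra hne
            have h1 := t1 hθt hne hω ρ hρθ
            exact hωn (h1.symm.trans hρω)
          rw [hθ1, one_mul] at hνθ
          have htor : Tor ψ ω η₁ := by
            refine ⟨hη₁t, fun σ hσ hσω => ?_, fun σ hσ hσω => ?_⟩
            · rcases (hq σ hσ).1 with h | h
              · exact hη₁ σ h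
              · exact absurd (hσω.symm.trans ((hσρ σ h _ hωφ).trans hρω)) hωn
            · rcases (hq σ hσ).1 with h | h
              · exact absurd ((hωφ σ h).symm.trans hσω) hωn
              · rw [hσρ σ h _ hη₁, hρη]
          obtain ⟨g, hg, hgc⟩ := hG.2 η₁ htor
          have hg0 : g ≠ 0 := tr3_ne hg.ord
          have hgl : InLoc φ g := fun σ hσ => hg.fix σ (hfix σ hσ) (hωφ σ hσ)
          have hρg : ρ g = g⁻¹ := hg.inv ρ hρ hρω
          refine ⟨1 / (y₁ * g), ρ (1 / (y₁ * g)), ?_, hinv _ ?_,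
            hend (φ s / ω) g _ ?_ ?_ ?_ hg0 hgc⟩
          · rw [map_div₀, map_one, map_mul, hρg, hνθ]
            field_simp
          · intro σ hσ
            rw [map_div₀, map_one, map_mul, hy₁ σ hσ, hgl σ hσ]
          · intro σ hσ
            rw [map_div₀]
            rcases (hq σ hσ).1 with h | h
            · rw [h, hωφ σ h]
            · rw [h, hQ.conj, map_neg, hσρ σ h _ hωφ, hρω, neg_div_neg_eq]
          · rw [div_mul_cancel₀ _ hω0]
          · rw [hz₁]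
            field_simp
  obtain ⟨t₁, t₂, h12, hinv, hcase⟩ := hmain
  have hA : (t₁ + t₂) / 2 + (t₁ - t₂) / (2 * φ s) * φ s = t₁ := by
    field_simp
    ring
  have hA' : (t₁ + t₂) / 2 - (t₁ - t₂) / (2 * φ s) * φ s = t₂ := by
    field_simp
    ring
  have hw12 : (φ z * t₁ ^ 3) * (φ (c z) * t₂ ^ 3) = 1 := by
    calc (φ z * t₁ ^ 3) * (φ (c z) * t₂ ^ 3) = (φ z * φ (c z)) * (t₁ * t₂) ^ 3 := by ring
      _ = (t₁ * t₂ * ψ ν) ^ 3 := by rw [hprod]; ring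
      _ = 1 := by rw [h12, one_pow]
  refine ⟨(t₁ + t₂) / 2, (t₁ - t₂) / (2 * φ s), ?_, ?_, ?_, ?_⟩
  · intro σ hσ
    rw [map_div₀, map_add, map_ofNat]
    rcases (hq σ hσ).1 with h | h
    · rw [((hinv σ hσ).1 h).1, ((hinv σ hσ).1 h).2]
    · rw [((hinv σ hσ).2 h).1, ((hinv σ hσ).2 h).2, add_comm]
  · intro σ hσ
    rw [map_div₀, map_sub, map_mul, map_ofNat]
    rcases (hq σ hσ).1 with h | h
    · rw [((hinv σ hσ).1 h).1, ((hinv σ hσ).1 h).2, h]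
    · rw [((hinv σ hσ).2 h).1, ((hinv σ hσ).2 h).2, h, hQ.conj, map_neg]
      have : (2 : Om) * -φ (s : K) = -(2 * φ s) := by ring
      rw [this, div_neg, ← neg_div, neg_sub]
  · rw [hA, hA', hψa, h12]
  · rw [hA, hA', hψa]
    have hτ0 : τ ≠ 0 := tr3_ne hG.1.ord
    have hmsq : φ (s : K) ^ 2 = 3 * ψ (m : k) := by
      rw [← map_pow, hQ.sq, hψa, map_mul, map_ofNat]
    rcases hcase with h | ⟨μ, hμ, ⟨hμs, h⟩ | ⟨hμs, h⟩⟩
    · left
      refine ⟨h, ?_⟩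
      rw [h, one_mul] at hw12
      exact hw12
    · right
      have h2 : φ (c z) * t₂ ^ 3 = τ⁻¹ := by
        rw [h] at hw12
        exact eq_inv_of_mul_eq_one_right hw12
      refine ⟨μ, hμ, ?_, ?_, ?_⟩
      · have h3 : (-3 : Om) * (μ ^ 2 + ψ (m : k)) = 0 := by
          rw [hμs, mul_pow, hω] at hmsq
          linear_combination hmsq
        rcases mul_eq_zero.1 h3 with h4 | h4
        · norm_num at h4
        · linear_combination h4
      · rw [h, hμs]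
        field_simp
        ring
      · rw [h2, hμs]
        field_simp
        ring
    · right
      have h2 : φ (c z) * t₂ ^ 3 = τ := by
        rw [h] at hw12
        rw [← inv_inv τ]
        exact eq_inv_of_mul_eq_one_right hw12
      refine ⟨μ, hμ, ?_, ?_, ?_⟩
      · have h3 : (-3 : Om) * (μ ^ 2 + ψ (m : k)) = 0 := by
          rw [hμs, neg_sq, mul_pow, hω] at hmsq
          linear_combination hmsq
        rcases mul_eq_zero.1 h3 with h4 | h4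
        · norm_num at h4
        · linear_combination h4
      · rw [h, hμs]
        field_simp
        ring
      · rw [h2, hμs]
        field_simp
        ring

end Pool.Agent.LeoD.H59
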