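import Mathlib
import Pool.Agent.LeoD.LocStmts

/-! Squad LEOD, module SQ2: residue classes of the negatives of the squares modulo 4. -/

set_option autoImplicit false

open NumberField IsDedekindDomain Module
open Pool.Agent.LeoK Pool.Agent.LeoG Pool.Agent.LeoC

open scoped Classical

namespace Pool.Agent.LeoD.H59

variable {k : Type} [Field k] [NumberField k]

lemma card_pow (p : HeightOneSpectrum (𝓞 k)) (a : ℕ) :
    (Nat.card (𝓞 k ⧸ p.asIdeal ^ a) : ℝ) = np p ^ a := by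
  unfold np
  have h : Nat.card (𝓞 k ⧸ p.asIdeal ^ a) = Ideal.absNorm (p.asIdeal ^ a) := by
    rw [Ideal.absNorm_apply, Submodule.cardQuot_apply]
  rw [h, map_pow]
  push_cast
  rfl

lemma fin_quot (p : HeightOneSpectrum (𝓞 k)) (a : ℕ) : Finite (𝓞 k ⧸ p.asIdeal ^ a) :=
  Ideal.finiteQuotientOfFreeOfNeBot _ (pow_ne_zero a p.ne_bot)

lemma unf_pow {p : HeightOneSpectrum (𝓞 k)} {π : 𝓞 k} (h : Unf p π) (n : ℕ) :
    π ^ n ∈ p.asIdeal ^ n := by
  have h1 := (h.iff n 0 1).2 (by simp)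
  simpa using h1

/-- The chosen representative of a residue class. -/
noncomputable def rp (I : Ideal (𝓞 k)) (x : 𝓞 k ⧸ I) : 𝓞 k :=
  (Ideal.Quotient.mk_surjective x).choose

lemma mk_rp (I : Ideal (𝓞 k)) (x : 𝓞 k ⧸ I) : Ideal.Quotient.mk I (rp I x) = x :=
  (Ideal.Quotient.mk_surjective x).choose_spec

lemma rp_mk (I : Ideal (𝓞 k)) (x : 𝓞 k) : x - rp I (Ideal.Quotient.mk I x) ∈ I := by
  rw [← Ideal.Quotient.eq, mk_rp]

lemma eq_of_rp (I : Ideal (𝓞 k)) (x y : 𝓞 k ⧸ I) (h : rp I x - rp I y ∈ I) : x = y := by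
  rw [← mk_rp I x, ← mk_rp I y, Ideal.Quotient.eq]
  exact h

/-- Many residue classes from an injection. -/
lemma le_ncard {p : HeightOneSpectrum (𝓞 k)} {a b c : ℕ} {S : Set (𝓞 k)}
    (f : 𝓞 k → 𝓞 k → 𝓞 k) (hf : ∀ x y, f x y ∈ S)
    (hinj : ∀ x y x' y', f x y - f x' y' ∈ p.asIdeal ^ a →
      x - x' ∈ p.asIdeal ^ b ∧ (x = x' → y - y' ∈ p.asIdeal ^ c)) :
    np p ^ (b + c) ≤ ((Ideal.Quotient.mk (p.asIdeal ^ a) '' S).ncard : ℝ) := by
  have hfb := fin_quot p b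
  have hfc := fin_quot p c
  have hfa := fin_quot p a
  let g : (𝓞 k ⧸ p.asIdeal ^ b) × (𝓞 k ⧸ p.asIdeal ^ c) →
      ↥(Ideal.Quotient.mk (p.asIdeal ^ a) '' S) := fun z =>
    ⟨Ideal.Quotient.mk _ (f (rp _ z.1) (rp _ z.2)), Set.mem_image_of_mem _ (hf _ _)⟩
  have hg : Function.Injective g := by
    rintro ⟨x, y⟩ ⟨x', y'⟩ h
    have h1 := congrArg Subtype.val h
    simp only [g] at h1
    rw [Ideal.Quotient.eq] at h1
    obtain ⟨h2, h3⟩ := hinj _ _ _ _ h1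
    have h4 := eq_of_rp _ _ _ h2
    subst h4
    have h5 := eq_of_rp _ _ _ (h3 rfl)
    rw [h5]
  have h1 := Nat.card_le_card_of_injective g hg
  rw [Nat.card_prod, Nat.card_coe_set_eq] at h1
  rw [pow_add, ← card_pow, ← card_pow]
  exact_mod_cast h1

/-- Few residue classes from a surjection. -/
lemma ncard_le {p : HeightOneSpectrum (𝓞 k)} {a b : ℕ} {S : Set (𝓞 k)}
    (f : 𝓞 k → 𝓞 k) (hf : ∀ m ∈ S, ∃ x, ∀ x', x - x' ∈ p.asIdeal ^ b → f x' - m ∈ p.asIdeal ^ a) :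
    ((Ideal.Quotient.mk (p.asIdeal ^ a) '' S).ncard : ℝ) ≤ np p ^ b := by
  have hfb := fin_quot p b
  have hsub : Ideal.Quotient.mk (p.asIdeal ^ a) '' S ⊆
      Set.range (fun z : 𝓞 k ⧸ p.asIdeal ^ b => Ideal.Quotient.mk (p.asIdeal ^ a) (f (rp _ z))) := by
    rintro _ ⟨m, hm, rfl⟩
    obtain ⟨x, hx⟩ := hf m hm
    refine ⟨Ideal.Quotient.mk _ x, ?_⟩
    simp only
    rw [Ideal.Quotient.eq]
    exact hx _ (rp_mk _ x)
  have hfr := Set.finite_range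
    (fun z : 𝓞 k ⧸ p.asIdeal ^ b => Ideal.Quotient.mk (p.asIdeal ^ a) (f (rp _ z)))
  have h1 := Set.ncard_le_ncard hsub hfr
  have h2 : (Set.range (fun z : 𝓞 k ⧸ p.asIdeal ^ b =>
      Ideal.Quotient.mk (p.asIdeal ^ a) (f (rp _ z)))).ncard ≤ Nat.card (𝓞 k ⧸ p.asIdeal ^ b) := by
    rw [← Nat.card_coe_set_eq]
    exact Finite.card_range_le _
  rw [← card_pow]
  exact_mod_cast h1.trans h2

lemma sq2 (vpi : VpiStmt) : Sq2Stmt := by
  intro k _ _ p h2p e he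
  obtain ⟨hle, -, hdiv, -, -, -, hunf⟩ := vpi k
  obtain ⟨π, hπ⟩ := hunf p
  have h20 : Ideal.span {(2 : 𝓞 k)} ≠ ⊥ := by
    rw [Ne, Ideal.span_singleton_eq_bot]
    exact two_ne_zero
  have h2e : (2 : 𝓞 k) ∈ p.asIdeal ^ e := by
    have h1 := (hle p (Ideal.span {(2 : 𝓞 k)}) e h20).2 he.le
    exact (Ideal.span_singleton_le_iff_mem _).1 h1
  -- squares
  have hsq : ∀ x x' : 𝓞 k, x ^ 2 - x' ^ 2 ∈ p.asIdeal ^ (2 * e) → x - x' ∈ p.asIdeal ^ e := by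
    intro x x' h
    by_cases hd : x - x' = 0
    · rw [hd]; exact zero_mem _
    have hd0 : Ideal.span {x - x'} ≠ ⊥ := by
      rw [Ne, Ideal.span_singleton_eq_bot]
      exact hd
    have hmem : ∀ n, x - x' ∈ p.asIdeal ^ n ↔ n ≤ ordp p (Ideal.span {x - x'}) := by
      intro n
      rw [← hle p _ n hd0, Ideal.span_singleton_le_iff_mem]
    rw [hmem]
    by_contra hcon
    push Not at hcon
    obtain ⟨i, hi⟩ : ∃ i, i = ordp p (Ideal.span {x - x'}) := ⟨_, rfl⟩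
    rw [← hi] at hcon
    have h3 : (x - x') * (x + x') ∈ p.asIdeal ^ (ordp p (Ideal.span {x - x'}) + (i + 1)) := by
      have h4 : (x - x') * (x + x') = x ^ 2 - x' ^ 2 := by ring
      rw [h4, ← hi]
      exact Ideal.pow_le_pow_right (by omega) h
    have h5 := hdiv p _ _ _ hd h3
    have h6 : x - x' ∈ p.asIdeal ^ (i + 1) := by
      have h7 : x - x' = (x + x') - x' * 2 := by ring
      rw [h7]
      exact sub_mem h5 (Ideal.mul_mem_left _ _ (Ideal.pow_le_pow_right (by omega) h2e))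
    have h8 := (hmem (i + 1)).1 h6
    omega
  set S1 : Set (𝓞 k) := {m | ∃ x : 𝓞 k, x ^ 2 + m ∈ p.asIdeal ^ (2 * e)} with hS1
  set S2 : Set (𝓞 k) := {m | ∃ x ∈ p.asIdeal, x ^ 2 + m ∈ p.asIdeal ^ (2 * e + 2)} with hS2
  have hA : np p ^ (e + 2) ≤
      ((Ideal.Quotient.mk (p.asIdeal ^ (2 * e + 2)) '' S1).ncard : ℝ) := by
    apply le_ncard (fun x y => π ^ (2 * e) * y - x ^ 2)
    · intro x y
      refine ⟨x, ?_⟩
      have h1 : x ^ 2 + (π ^ (2 * e) * y - x ^ 2) = π ^ (2 * e) * y := by ring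
      rw [h1]
      exact Ideal.mul_mem_right _ _ (unf_pow hπ _)
    · intro x y x' y' h
      constructor
      · apply hsq
        have h1 : x ^ 2 - x' ^ 2 = π ^ (2 * e) * (y - y') -
            ((π ^ (2 * e) * y - x ^ 2) - (π ^ (2 * e) * y' - x' ^ 2)) := by ring
        rw [h1]
        exact sub_mem (Ideal.mul_mem_right _ _ (unf_pow hπ _))
          (Ideal.pow_le_pow_right (by omega) h)
      · intro hx
        subst hx
        rw [← hπ.iff (2 * e) 2]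
        have h1 : π ^ (2 * e) * (y - y') =
            (π ^ (2 * e) * y - x ^ 2) - (π ^ (2 * e) * y' - x ^ 2) := by ring
        rw [h1]
        exact h
  have hB : ((Ideal.Quotient.mk (p.asIdeal ^ (2 * e + 2)) '' S2).ncard : ℝ) ≤ np p ^ e := by
    apply ncard_le (fun x => -(π * x) ^ 2)
    rintro m ⟨x, hxp, hx⟩
    obtain ⟨f, hf⟩ := hπ.div 1 (2 * e + 2) x (by simpa using hxp)
    refine ⟨f, ?_⟩
    intro f' hf'
    rw [pow_one] at hf
    have hπ1 : π ∈ p.asIdeal := by simpa using unf_pow hπ 1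
    have hπ2 : π ^ 2 ∈ p.asIdeal ^ 2 := unf_pow hπ 2
    have h1 : -(π * f') ^ 2 - m = -(x ^ 2 + m) + (x - π * f) * (x + π * f) +
        π ^ 2 * ((f - f') * (2 * f)) - π ^ 2 * ((f - f') * (f - f')) := by ring
    rw [h1]
    refine sub_mem (add_mem (add_mem (neg_mem hx) (Ideal.mul_mem_right _ _ hf)) ?_) ?_
    · have h2 : p.asIdeal ^ (2 * e + 2) = p.asIdeal ^ 2 * (p.asIdeal ^ e * p.asIdeal ^ e) := by
        rw [← pow_add, ← pow_add]
        congr 1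
        omega
      rw [h2]
      exact Ideal.mul_mem_mul hπ2 (Ideal.mul_mem_mul hf' (Ideal.mul_mem_right _ _ h2e))
    · have h2 : p.asIdeal ^ (2 * e + 2) = p.asIdeal ^ 2 * (p.asIdeal ^ e * p.asIdeal ^ e) := by
        rw [← pow_add, ← pow_add]
        congr 1
        omega
      rw [h2]
      exact Ideal.mul_mem_mul hπ2 (Ideal.mul_mem_mul hf' hf')
  have hfa := fin_quot p (2 * e + 2)
  have hsub : (Ideal.Quotient.mk (p.asIdeal ^ (2 * e + 2)) '' S1) \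
      (Ideal.Quotient.mk (p.asIdeal ^ (2 * e + 2)) '' S2) ⊆
      Ideal.Quotient.mk (p.asIdeal ^ (2 * e + 2)) '' {m : 𝓞 k |
        (∃ x : 𝓞 k, x ^ 2 + m ∈ p.asIdeal ^ (2 * e)) ∧
        ¬ ∃ x ∈ p.asIdeal, x ^ 2 + m ∈ p.asIdeal ^ (2 * e + 2)} := by
    rintro _ ⟨⟨m, hm, rfl⟩, hn⟩
    refine ⟨m, ⟨hm, ?_⟩, rfl⟩
    intro h
    exact hn ⟨m, h, rfl⟩
  have h1 := Set.ncard_le_ncard hsub (Set.toFinite _)
  have h2 := Set.ncard_le_ncard_sdiff_add_ncard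
    (Ideal.Quotient.mk (p.asIdeal ^ (2 * e + 2)) '' S1)
    (Ideal.Quotient.mk (p.asIdeal ^ (2 * e + 2)) '' S2) (Set.toFinite _)
  have h1' : (((Ideal.Quotient.mk (p.asIdeal ^ (2 * e + 2)) '' S1) \
      (Ideal.Quotient.mk (p.asIdeal ^ (2 * e + 2)) '' S2)).ncard : ℝ) ≤ _ := Nat.cast_le.2 h1
  have h2' : ((Ideal.Quotient.mk (p.asIdeal ^ (2 * e + 2)) '' S1).ncard : ℝ) ≤
      (((Ideal.Quotient.mk (p.asIdeal ^ (2 * e + 2)) '' S1) \
      (Ideal.Quotient.mk (p.asIdeal ^ (2 * e + 2)) '' S2)).ncard : ℝ) +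
      ((Ideal.Quotient.mk (p.asIdeal ^ (2 * e + 2)) '' S2).ncard : ℝ) := by exact_mod_cast h2
  linarith

end Pool.Agent.LeoD.H59
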