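import Mathlib
import Pool.Agent.Helper59_LeoD.Sq2

/-! Squad LEOD, module MRP: the residue classes of the family at one prime. -/

set_option autoImplicit false

open NumberField IsDedekindDomain Module
open Pool.Agent.LeoK Pool.Agent.LeoG Pool.Agent.LeoC

open scoped Classical

namespace Pool.Agent.LeoD.H59

variable {k : Type} [Field k] [NumberField k]

/-- The number of the residue classes which are in `p ^ i` and not in `p ^ a`. -/
lemma cnt_diff {p : HeightOneSpectrum (𝓞 k)} {π : 𝓞 k} (hπ : Unf p π) (i j : ℕ) :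
    np p ^ j - 1 ≤ ((Ideal.Quotient.mk (p.asIdeal ^ (i + j)) ''
      {m : 𝓞 k | m ∈ p.asIdeal ^ i ∧ m ∉ p.asIdeal ^ (i + j)}).ncard : ℝ) := by
  have hfa := fin_quot p (i + j)
  have hA : np p ^ (j + 0) ≤
      ((Ideal.Quotient.mk (p.asIdeal ^ (i + j)) '' {m : 𝓞 k | m ∈ p.asIdeal ^ i}).ncard : ℝ) := by
    apply le_ncard (fun x _ => π ^ i * x)
    · intro x y
      exact Ideal.mul_mem_right _ _ (unf_pow hπ _)
    · intro x y x' y' h
      refine ⟨?_, fun _ => by simp⟩
      rw [← hπ.iff i j, mul_sub]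
      exact h
  have hsub : (Ideal.Quotient.mk (p.asIdeal ^ (i + j)) '' {m : 𝓞 k | m ∈ p.asIdeal ^ i}) \ {0} ⊆
      Ideal.Quotient.mk (p.asIdeal ^ (i + j)) ''
        {m : 𝓞 k | m ∈ p.asIdeal ^ i ∧ m ∉ p.asIdeal ^ (i + j)} := by
    rintro _ ⟨⟨m, hm, rfl⟩, hn⟩
    refine ⟨m, ⟨hm, ?_⟩, rfl⟩
    intro h
    exact hn (Ideal.Quotient.eq_zero_iff_mem.2 h)
  have h1 := Set.ncard_le_ncard hsub (Set.toFinite _)
  have h2 := Set.ncard_le_ncard_sdiff_add_ncard
    (Ideal.Quotient.mk (p.asIdeal ^ (i + j)) '' {m : 𝓞 k | m ∈ p.asIdeal ^ i}) {0}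
    (Set.toFinite _)
  rw [Set.ncard_singleton] at h2
  have h3 := Nat.cast_le (α := ℝ).2 (h2.trans (Nat.add_le_add_right h1 1))
  push_cast at h3
  rw [add_zero] at hA
  linarith

lemma mrp (vpi : VpiStmt) (sq2 : Sq2Stmt) (bfn : BfnStmt) : MrpStmt := by
  intro k _ _ B E p
  obtain ⟨hle, -, hdiv, -, -, hnp2, hunf⟩ := vpi k
  obtain ⟨hb0, hbb, hcc, -, h6, -⟩ := bfn k B
  obtain ⟨π, hπ⟩ := hunf p
  have h20 : Ideal.span {(2 : 𝓞 k)} ≠ ⊥ := by
    rw [Ne, Ideal.span_singleton_eq_bot]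
    exact two_ne_zero
  have hq2 := hnp2 p
  have hq0 : 0 < np p := by linarith
  -- elements of an ideal outside of `p`
  have hcop : ∀ (I : Ideal (𝓞 k)), I ≠ ⊥ → ∃ J : Ideal (𝓞 k), I = p.asIdeal ^ ordp p I * J ∧
      ∃ s ∈ J, s ∉ p.asIdeal := by
    intro I hI
    have h1 : I ≤ p.asIdeal ^ ordp p I := (hle p I _ hI).2 le_rfl
    obtain ⟨J, hJ⟩ := Ideal.dvd_iff_le.2 h1
    refine ⟨J, hJ, ?_⟩
    by_contra hcon
    push Not at hcon
    have h2 : I ≤ p.asIdeal ^ (ordp p I + 1) := by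
      rw [pow_succ]
      calc I = p.asIdeal ^ ordp p I * J := hJ
        _ ≤ p.asIdeal ^ ordp p I * p.asIdeal := Ideal.mul_mono_right hcon
    have h3 := (hle p I _ hI).1 h2
    omega
  have hord0 : ∀ (I : Ideal (𝓞 k)), I ≠ ⊥ → ¬ I ≤ p.asIdeal → ordp p I = 0 := by
    intro I hI h
    by_contra hcon
    apply h
    have h1 := (hle p I 1 hI).2 (by omega)
    simpa using h1
  obtain ⟨Jc, hJc, tc, htc, htcp⟩ := hcop B.cc hcc
  obtain ⟨J2, hJ2, t2, ht2, ht2p⟩ := hcop _ h20
  obtain ⟨c, hc⟩ : ∃ c, c = ordp p B.cc := ⟨_, rfl⟩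
  obtain ⟨e, he⟩ : ∃ e, e = ordp p (Ideal.span {(2 : 𝓞 k)}) := ⟨_, rfl⟩
  rw [← hc] at hJc ⊢
  rw [← he] at hJ2 ⊢
  have h4eq : Ideal.span {(4 : 𝓞 k)} = Ideal.span {(2 : 𝓞 k)} ^ 2 := by
    rw [Ideal.span_singleton_pow]
    norm_num
  have hccp : B.cc ≤ p.asIdeal ^ c := (hle p B.cc c hcc).2 hc.le
  have h2pe : Ideal.span {(2 : 𝓞 k)} ≤ p.asIdeal ^ e := (hle p _ e h20).2 he.le
  -- the local condition
  have hloc : ∀ m x : 𝓞 k, x ∈ p.asIdeal ^ c → x ^ 2 + m ∈ p.asIdeal ^ (2 * e + 2 * c) →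
      SqM B.cc ((t2 * tc) ^ 2 * m) := by
    intro m x hx hm
    refine ⟨t2 * tc * x, ?_, ?_⟩
    · rw [hJc]
      have h1 : t2 * tc * x = t2 * (x * tc) := by ring
      rw [h1]
      exact Ideal.mul_mem_left _ _ (Ideal.mul_mem_mul hx htc)
    · have h1 : Ideal.span {(4 : 𝓞 k)} * B.cc ^ 2 =
          p.asIdeal ^ (2 * e + 2 * c) * (J2 ^ 2 * Jc ^ 2) := by
        rw [h4eq, hJ2, hJc]
        ring
      rw [h1]
      have h2 : (t2 * tc * x) ^ 2 + (t2 * tc) ^ 2 * m = (x ^ 2 + m) * (t2 ^ 2 * tc ^ 2) := by ring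
      rw [h2]
      exact Ideal.mul_mem_mul hm (Ideal.mul_mem_mul (Ideal.pow_mem_pow ht2 2)
        (Ideal.pow_mem_pow htc 2))
  have htt : t2 * tc ∉ p.asIdeal := by
    intro h
    rcases p.isPrime.mem_or_mem h with h | h
    · exact ht2p h
    · exact htcp h
  have hnot : ∀ m : 𝓞 k, SqM (B.cc * p.asIdeal) m → ∃ x ∈ p.asIdeal ^ (c + 1),
      x ^ 2 + m ∈ p.asIdeal ^ (2 * e + 2 * c + 2) := by
    rintro m ⟨q, hq, hqm⟩
    have h1 : B.cc * p.asIdeal ≤ p.asIdeal ^ (c + 1) := by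
      rw [pow_succ]
      exact Ideal.mul_mono_left hccp
    refine ⟨q, h1 hq, ?_⟩
    have h2 : Ideal.span {(4 : 𝓞 k)} * (B.cc * p.asIdeal) ^ 2 ≤
        p.asIdeal ^ (2 * e + 2 * c + 2) := by
      have h3 : p.asIdeal ^ (2 * e + 2 * c + 2) = (p.asIdeal ^ e) ^ 2 * (p.asIdeal ^ (c + 1)) ^ 2 := by
        ring
      rw [h4eq, h3]
      exact Ideal.mul_mono (Ideal.pow_right_mono h2pe 2) (Ideal.pow_right_mono h1 2)
    exact h2 hqm
  by_cases h2 : (2 : 𝓞 k) ∈ p.asIdeal
  · -- above 2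
    have h6p : (6 : 𝓞 k) ∈ p.asIdeal := by
      have h1 : (6 : 𝓞 k) = 3 * 2 := by norm_num
      rw [h1]
      exact Ideal.mul_mem_left _ _ h2
    have hc0 : c = 0 := by
      rw [hc]
      exact hord0 _ hcc (h6 p h6p).2.2
    have h3p : (3 : 𝓞 k) ∉ p.asIdeal := by
      intro h3
      apply p.isPrime.ne_top
      rw [Ideal.eq_top_iff_one]
      have h1 : (1 : 𝓞 k) = 3 - 2 := by norm_num
      rw [h1]
      exact sub_mem h3 h2
    subst hc0
    refine ⟨2 * e + 2, {m : 𝓞 k | (∃ x : 𝓞 k, x ^ 2 + m ∈ p.asIdeal ^ (2 * e)) ∧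
        ¬ ∃ x ∈ p.asIdeal, x ^ 2 + m ∈ p.asIdeal ^ (2 * e + 2)}, ?_, ?_, ?_⟩
    · rintro m ⟨⟨x, hx⟩, hm⟩ m' hmm
      refine ⟨⟨x, ?_⟩, ?_⟩
      · have h1 : x ^ 2 + m' = (x ^ 2 + m) - (m - m') := by ring
        rw [h1]
        exact sub_mem hx (Ideal.pow_le_pow_right (by omega) hmm)
      · rintro ⟨y, hy, hy'⟩
        apply hm
        refine ⟨y, hy, ?_⟩
        have h1 : y ^ 2 + m = (y ^ 2 + m') + (m - m') := by ring
        rw [h1]
        exact add_mem hy' hmm
    · rintro m ⟨⟨x, hx⟩, hm⟩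
      refine ⟨⟨t2 * tc, htt, hloc m x (by simp) (by simpa using hx)⟩, ?_, fun h => absurd h h3p⟩
      intro h
      obtain ⟨x, hx, hx'⟩ := hnot m h
      exact hm ⟨x, by simpa using hx, by simpa using hx'⟩
    · have h1 := sq2 k p h2 e he
      refine le_trans (le_of_eq ?_) h1
      unfold dE
      rw [if_neg h3p]
      have h5 : np p ^ (2 * e + 2) = np p ^ e * np p ^ e * np p ^ 2 := by
        rw [← pow_add, ← pow_add]
        congr 1
        omega
      have h6 : np p ^ (e + 2 * 0) = np p ^ e := by simp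
      have h7 : np p ^ (e + 2) = np p ^ e * np p ^ 2 := pow_add _ _ _
      rw [h5, h6, h7]
      have h8 : np p ^ e ≠ 0 := (pow_pos hq0 e).ne'
      have h9 : np p ≠ 0 := hq0.ne'
      field_simp
  · have he0 : e = 0 := by
      rw [he]
      apply hord0 _ h20
      intro h
      exact h2 ((Ideal.span_singleton_le_iff_mem _).1 h)
    subst he0
    have hnot' : ∀ m : 𝓞 k, SqM (B.cc * p.asIdeal) m → m ∈ p.asIdeal ^ (2 * c + 2) := by
      intro m h
      obtain ⟨x, hx, hx'⟩ := hnot m h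
      have h1 : m = (x ^ 2 + m) - x ^ 2 := by ring
      rw [h1]
      refine sub_mem (by simpa using hx') ?_
      have h5 := Ideal.pow_mem_pow hx 2
      rw [← pow_mul] at h5
      have h6 : (c + 1) * 2 = 2 * c + 2 := by ring
      rwa [h6] at h5
    have hloc' : ∀ m : 𝓞 k, m ∈ p.asIdeal ^ (2 * c) → SqM B.cc ((t2 * tc) ^ 2 * m) := by
      intro m hm
      exact hloc m 0 (zero_mem _) (by simpa using hm)
    by_cases h3 : (3 : 𝓞 k) ∈ p.asIdeal
    · -- above 3
      have h6p : (6 : 𝓞 k) ∈ p.asIdeal := by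
        have h1 : (6 : 𝓞 k) = 2 * 3 := by norm_num
        rw [h1]
        exact Ideal.mul_mem_left _ _ h3
      have hc0 : c = 0 := by
        rw [hc]
        exact hord0 _ hcc (h6 p h6p).2.2
      subst hc0
      by_cases hE : p ∈ E
      · have h1 := cnt_diff hπ 1 1
        refine ⟨1 + 1, {m : 𝓞 k | m ∈ p.asIdeal ^ 1 ∧ m ∉ p.asIdeal ^ (1 + 1)}, ?_, ?_, ?_⟩
        · rintro m ⟨hm1, hm2⟩ m' hmm
          constructor
          · have h5 : m' = m - (m - m') := by ring
            rw [h5]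
            exact sub_mem hm1 (Ideal.pow_le_pow_right (by omega) hmm)
          · intro h
            apply hm2
            have h5 : m = m' + (m - m') := by ring
            rw [h5]
            exact add_mem h hmm
        · rintro m ⟨hm1, hm2⟩
          refine ⟨⟨t2 * tc, htt, hloc' m (by simp)⟩, ?_, ?_⟩
          · intro h
            exact hm2 (by simpa using hnot' m h)
          · intro _
            exact ⟨fun _ => hE, fun _ => by simpa using hm1⟩
        · refine le_trans (le_of_eq ?_) h1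
          unfold dE
          rw [if_pos h3, if_pos hE]
          have h9 : np p ≠ 0 := hq0.ne'
          simp only [Nat.mul_zero, Nat.add_zero, pow_zero, div_one, pow_one, Nat.reduceAdd]
          field_simp
      · have h1 := cnt_diff hπ 0 1
        refine ⟨0 + 1, {m : 𝓞 k | m ∈ p.asIdeal ^ 0 ∧ m ∉ p.asIdeal ^ (0 + 1)}, ?_, ?_, ?_⟩
        · rintro m ⟨hm1, hm2⟩ m' hmm
          constructor
          · simp
          · intro h
            apply hm2
            have h5 : m = m' + (m - m') := by ring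
            rw [h5]
            exact add_mem h hmm
        · rintro m ⟨hm1, hm2⟩
          refine ⟨⟨t2 * tc, htt, hloc' m (by simp)⟩, ?_, ?_⟩
          · intro h
            have h5 := hnot' m h
            apply hm2
            exact Ideal.pow_le_pow_right (by omega) h5
          · intro _
            constructor
            · intro h
              exact absurd (by simpa using h) hm2
            · intro h
              exact absurd h hE
        · refine le_trans (le_of_eq ?_) h1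
          unfold dE
          rw [if_pos h3, if_neg hE]
          have h9 : np p ≠ 0 := hq0.ne'
          simp only [Nat.mul_zero, Nat.add_zero, pow_zero, div_one, pow_one, Nat.zero_add]
          field_simp
    · have h1 := cnt_diff hπ (2 * c) 2
      refine ⟨2 * c + 2, {m : 𝓞 k | m ∈ p.asIdeal ^ (2 * c) ∧ m ∉ p.asIdeal ^ (2 * c + 2)},
        ?_, ?_, ?_⟩
      · rintro m ⟨hm1, hm2⟩ m' hmm
        constructor
        · have h5 : m' = m - (m - m') := by ring
          rw [h5]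
          exact sub_mem hm1 (Ideal.pow_le_pow_right (by omega) hmm)
        · intro h
          apply hm2
          have h5 : m = m' + (m - m') := by ring
          rw [h5]
          exact add_mem h hmm
      · rintro m ⟨hm1, hm2⟩
        refine ⟨⟨t2 * tc, htt, hloc' m hm1⟩, ?_, fun h => absurd h h3⟩
        intro h
        exact hm2 (hnot' m h)
      · refine le_trans (le_of_eq ?_) h1
        unfold dE
        rw [if_neg h3]
        have h9 : np p ≠ 0 := hq0.ne'
        rw [Nat.zero_add, pow_add]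
        field_simp

end Pool.Agent.LeoD.H59
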