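import Mathlib
import Pool.Agent.LeoD.FieldStmts

/-!
# LEOD, module PRM
-/

set_option autoImplicit false

open NumberField NumberField.InfinitePlace NumberField.mixedEmbedding IsDedekindDomain Module
open Pool.Agent.LeoD

namespace Pool.Agent.LeoD.H59

lemma exists_frac {k : Type} [Field k] [NumberField k] (a : k) :
    ∃ x y : 𝓞 k, y ≠ 0 ∧ a = (x : k) / (y : k) := by
  obtain ⟨x, y, hy, h⟩ := IsFractionRing.div_surjective (A := 𝓞 k) a
  exact ⟨x, y, nonZeroDivisors.ne_zero hy, h.symm⟩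

/-- **PRM**. -/
theorem prm (hfnb : FnbStmt) : PrmStmt := by
  intro k _ _ J B hB
  obtain ⟨-, hfun, -, -, hscal, huni, hex⟩ := hfnb k
  constructor
  · intro a ha
    obtain ⟨I, m₀, t, ht, hm, hF⟩ := hex a ha
    obtain ⟨hI, hm0, hmI, -⟩ := hfun I m₀ hF
    obtain ⟨j, ⟨α, β, hα, hβ, h⟩, -⟩ := hB I hI
    -- `m` with `β² m = α² m₀`
    have h1 : α ^ 2 * m₀ ∈ (Ideal.span {β} * (B j).cc) ^ 2 := by
      rw [← h, mul_pow, Ideal.span_singleton_pow]
      exact Ideal.mul_mem_mul (Ideal.mem_span_singleton_self (α ^ 2)) hmI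
    obtain ⟨m, hm'⟩ : ∃ m : 𝓞 k, β ^ 2 * m = α ^ 2 * m₀ := by
      have h2 : (Ideal.span {β} * (B j).cc) ^ 2 ≤ Ideal.span {β ^ 2} := by
        rw [mul_pow, Ideal.span_singleton_pow]
        exact Ideal.mul_le_left (I := Ideal.span {β ^ 2}) (J := (B j).cc ^ 2)
      obtain ⟨m, hm⟩ := Ideal.mem_span_singleton'.1 (h2 h1)
      exact ⟨m, by rw [mul_comm, hm]⟩
    have hβk : (β : k) ≠ 0 := by simpa using hβ
    have hαk : (α : k) ≠ 0 := by simpa using hα
    have hmk : (β : k) ^ 2 * (m : k) = (α : k) ^ 2 * (m₀ : k) := by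
      have := congrArg (algebraMap (𝓞 k) k) hm'
      simpa using this
    refine ⟨j, m, (α : k) / β * t, by positivity, ?_, hscal I (B j).cc m₀ m α β hα hβ h hm' hF⟩
    rw [hm] at hmk
    field_simp
    linear_combination hmk
  · intro j j' m m' t hF hF' htm
    obtain ⟨hI, hm0, -, -⟩ := hfun _ _ hF
    obtain ⟨hI', hm0', -, -⟩ := hfun _ _ hF'
    obtain ⟨α, β, hβ, ht⟩ := exists_frac t
    have hβk : (β : k) ≠ 0 := by simpa using hβ
    have hα : α ≠ 0 := by
      rintro rfl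
      apply hm0'
      have : (m' : k) = 0 := by rw [htm, ht]; simp
      exact_mod_cast this
    have hrel : β ^ 2 * m' = α ^ 2 * m := by
      apply RingOfIntegers.coe_injective
      have : (β : k) ^ 2 * (m' : k) = (α : k) ^ 2 * (m : k) := by
        rw [htm, ht]
        field_simp
      simpa using this
    have heq := huni (B j).cc (B j').cc m m' α β hα hβ hF hF' hrel
    have hjj : j = j' := by
      obtain ⟨j₀, -, hj₀⟩ := hB (B j).cc hI
      rw [hj₀ j ⟨1, 1, one_ne_zero, one_ne_zero, rfl⟩, hj₀ j' ⟨α, β, hα, hβ, heq⟩]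
    subst hjj
    refine ⟨rfl, ?_⟩
    have hspan : Ideal.span {α} = Ideal.span {β} := by
      have hI0 : (B j).cc ≠ 0 := hI
      exact mul_right_cancel₀ hI0 heq
    obtain ⟨η, hη⟩ := Ideal.span_singleton_eq_span_singleton.1 hspan.symm
    refine ⟨η, ?_⟩
    -- `β η = α`
    have h3 : β ^ 2 * m' = β ^ 2 * ((η : 𝓞 k) ^ 2 * m) := by
      rw [hrel, ← hη]
      ring
    exact mul_left_cancel₀ (pow_ne_zero 2 hβ) h3

end Pool.Agent.LeoD.H59
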