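import Mathlib
import Pool.Agent.LeoD.MixStmts
import Pool.Agent.Helper59_LeoD.Qtl

/-!
# LEOD, module QLM: the tail, signature (2, 1)
-/

set_option autoImplicit false

open NumberField NumberField.InfinitePlace IsDedekindDomain Module Filter
open Pool.Agent.LeoC Pool.Agent.LeoD

open scoped Classical

namespace Pool.Agent.LeoD.H59

/-- **QLM**. -/
theorem qlm (hqxb : QxbStmt) (hclb : ClbStmt) (hidb : IdbStmt) (hqtm : QtmStmt)
    (hqrf : QrfStmt) (hlay : LayStmt) : QlmStmt := by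
  obtain ⟨C₁, hC₁, hcl⟩ := hclb
  obtain ⟨C₂, hC₂, hid⟩ := hidb
  -- the bound for one field
  have hterm : ∀ (X : ℝ) (d : ℕ), 0 ≤ X → Squarefree d → 1 < d →
      ({K | K ∈ Q4m X ∧ rq d ≤ K}.ncard : ℝ) ≤ X * (648 * C₁ * C₂ * (1 / (d : ℝ) ^ (5 / 4 : ℝ))) := by
    intro X d hX hsq hd
    obtain ⟨hNF, hfin, hreal, hlow, hupp, s, hs⟩ := hqrf.2 d hsq hd
    obtain ⟨-, h1, -⟩ := hqtm (rq d) hNF hfin hreal (hlay (rq d) hNF hfin hreal) X
      fun w => (hqxb (rq d) {w} X).1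
    rw [h1]
    have hr2 : nrComplexPlaces (rq d) = 0 := nrComplexPlaces_eq_zero_iff.2 hreal
    have hr1 : nrRealPlaces (rq d) = 2 := by
      have := card_add_two_mul_card_eq_rank (rq d)
      rw [hr2, hfin] at this
      omega
    have hd1 : (1 : ℝ) ≤ d := by exact_mod_cast hd.le
    have hd0 : (0 : ℝ) < d := by linarith
    have hlog : 0 ≤ Real.log d := Real.log_nonneg hd1
    have hD : (d : ℝ) ≤ ((discr (rq d)).natAbs : ℝ) := by
      have h2 : (d : ℤ) ≤ ((discr (rq d)).natAbs : ℤ) := by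
        rw [Int.natCast_natAbs]
        exact hlow.trans (le_abs_self _)
      exact_mod_cast h2
    have hcl' := hcl (rq d) d s hfin hsq hd hs hreal hupp
    -- the ideals
    have hI : ({I : Ideal (𝓞 (rq d)) | I ≠ ⊥ ∧
        ((discr (rq d)).natAbs : ℝ) ^ 2 * (Ideal.absNorm I : ℝ) ≤ X}.ncard : ℝ) ≤
        C₂ * (X / d ^ 2) * (1 + Real.log d) := by
      by_cases hY : 1 ≤ X / (d : ℝ) ^ 2
      · obtain ⟨hf, hb⟩ := hid (rq d) d s hfin hsq hd hs (X / d ^ 2) hY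
        refine le_trans (Nat.cast_le.2 (Set.ncard_le_ncard ?_ hf)) hb
        rintro I ⟨hI0, hI1⟩
        refine ⟨hI0, ?_⟩
        rw [le_div_iff₀ (by positivity)]
        have h3 : (d : ℝ) ^ 2 ≤ ((discr (rq d)).natAbs : ℝ) ^ 2 := by gcongr
        have h4 : (0 : ℝ) ≤ (Ideal.absNorm I : ℝ) := by positivity
        nlinarith
      · have hempty : {I : Ideal (𝓞 (rq d)) | I ≠ ⊥ ∧
            ((discr (rq d)).natAbs : ℝ) ^ 2 * (Ideal.absNorm I : ℝ) ≤ X} = ∅ := by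
          rw [Set.eq_empty_iff_forall_notMem]
          rintro I ⟨hI0, hI1⟩
          apply hY
          rw [le_div_iff₀ (by positivity)]
          have h3 : (d : ℝ) ^ 2 ≤ ((discr (rq d)).natAbs : ℝ) ^ 2 := by gcongr
          have h4 : (1 : ℝ) ≤ (Ideal.absNorm I : ℝ) := by
            have : Ideal.absNorm I ≠ 0 := by rwa [Ne, Ideal.absNorm_eq_zero_iff]
            exact_mod_cast Nat.one_le_iff_ne_zero.2 this
          nlinarith
        rw [hempty, Set.ncard_empty]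
        have : 0 ≤ X / (d : ℝ) ^ 2 := by positivity
        push_cast
        positivity
    have hX2 : 0 ≤ X / (d : ℝ) ^ 2 := by positivity
    have hone : ∀ w : {w : InfinitePlace (rq d) // IsReal w}, ((Qx (rq d) {w} X).ncard : ℝ) ≤
        X * (324 * C₁ * C₂ * (1 / (d : ℝ) ^ (5 / 4 : ℝ))) := by
     intro w
     obtain ⟨hQfin, hQ⟩ := hqxb (rq d) {w} X
     rw [hr1, hr2] at hQ
     have hQ' : ((Qx (rq d) {w} X).ncard : ℝ) ≤ 2 ^ (2 + 0) *
        (Fintype.card (ClassGroup (𝓞 (rq d))) : ℝ) * ({I : Ideal (𝓞 (rq d)) | I ≠ ⊥ ∧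
        ((discr (rq d)).natAbs : ℝ) ^ 2 * (Ideal.absNorm I : ℝ) ≤ X}.ncard : ℝ) := by
      exact_mod_cast hQ
     calc ((Qx (rq d) {w} X).ncard : ℝ) ≤ 2 ^ (2 + 0) *
        (Fintype.card (ClassGroup (𝓞 (rq d))) : ℝ) * ({I : Ideal (𝓞 (rq d)) | I ≠ ⊥ ∧
        ((discr (rq d)).natAbs : ℝ) ^ 2 * (Ideal.absNorm I : ℝ) ≤ X}.ncard : ℝ) := hQ'
      _ ≤ 2 ^ (2 + 0) * (C₁ * Real.sqrt d * (1 + Real.log d)) *
          (C₂ * (X / d ^ 2) * (1 + Real.log d)) := by gcongr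
      _ = X * (4 * C₁ * C₂ * (Real.sqrt d * (1 + Real.log d) ^ 2 / d ^ 2)) := by ring
      _ ≤ X * (4 * C₁ * C₂ * (81 * (1 / (d : ℝ) ^ (5 / 4 : ℝ)))) := by
          gcongr
          exact log_bound hd1
      _ = X * (324 * C₁ * C₂ * (1 / (d : ℝ) ^ (5 / 4 : ℝ))) := by ring
    have hcard : (Fintype.card {w : InfinitePlace (rq d) // IsReal w} : ℝ) = 2 := by
      have h5 : Fintype.card {w : InfinitePlace (rq d) // IsReal w} = 2 := hr1
      rw [h5]
      norm_num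
    calc ((∑ w : {w : InfinitePlace (rq d) // IsReal w}, (Qx (rq d) {w} X).ncard : ℕ) : ℝ)
        = ∑ w : {w : InfinitePlace (rq d) // IsReal w}, ((Qx (rq d) {w} X).ncard : ℝ) := by
          push_cast
          rfl
      _ ≤ ∑ _w : {w : InfinitePlace (rq d) // IsReal w},
          X * (324 * C₁ * C₂ * (1 / (d : ℝ) ^ (5 / 4 : ℝ))) := Finset.sum_le_sum fun w _ => hone w
      _ = X * (648 * C₁ * C₂ * (1 / (d : ℝ) ^ (5 / 4 : ℝ))) := by
          rw [Finset.sum_const, nsmul_eq_mul, Finset.card_univ, hcard]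
          ring
  -- summation
  intro δ hδ
  have hsum : Summable fun d : ℕ => 648 * C₁ * C₂ * (1 / (d : ℝ) ^ (5 / 4 : ℝ)) :=
    (Real.summable_one_div_nat_rpow.2 (by norm_num)).mul_left _
  obtain ⟨s, hs⟩ := summable_iff_vanishing_norm.1 hsum δ hδ
  refine ⟨s.sup id, fun X S hX hS => ?_⟩
  have hdis : Disjoint S s := by
    rw [Finset.disjoint_left]
    intro d hd hds
    have h1 := (hS d hd).2.2
    have h2 : d ≤ s.sup id := Finset.le_sup (f := id) hds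
    omega
  have h3 := hs S hdis
  rw [Real.norm_eq_abs] at h3
  have h4 := (le_abs_self _).trans h3.le
  calc ∑ d ∈ S, ({K | K ∈ Q4m X ∧ rq d ≤ K}.ncard : ℝ)
      ≤ ∑ d ∈ S, X * (648 * C₁ * C₂ * (1 / (d : ℝ) ^ (5 / 4 : ℝ))) :=
        Finset.sum_le_sum fun d hd => hterm X d hX (hS d hd).1 (hS d hd).2.1
    _ = X * ∑ d ∈ S, (648 * C₁ * C₂ * (1 / (d : ℝ) ^ (5 / 4 : ℝ))) := by
        rw [Finset.mul_sum]
    _ ≤ X * δ := by gcongr
    _ = δ * X := mul_comm _ _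

end Pool.Agent.LeoD.H59
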