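import Pool.Agent.LeoD.MixStmts
import Pool.Agent.Helper20_LeoD.Qsq

/-!
LEOD, part MIX, module QSM: the quadratic subfield of a quartic field of signature (2, 1).
-/

set_option autoImplicit false

open NumberField NumberField.InfinitePlace IsDedekindDomain Module
open Pool.Agent.Helper85_Leo

namespace Pool.Agent.LeoD.H59

theorem real_sub {K k : IntermediateField ℚ (AlgebraicClosure ℚ)} (h : k ≤ K) (hK : NumberField K)
    (hk : NumberField k) (h4 : finrank ℚ K = 4) (hc : nrComplexPlaces K = 1)
    (h2 : finrank ℚ k = 2) : IsTotallyReal k := by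
  classical
  let a1 : Algebra k K := (IntermediateField.inclusion h).toRingHom.toAlgebra
  have e1 := card_add_two_mul_card_eq_rank K
  have e2 := card_add_two_mul_card_eq_rank k
  rw [h4, hc] at e1
  rw [h2] at e2
  have h5 : 0 < nrRealPlaces K := by omega
  unfold nrRealPlaces at h5
  obtain ⟨w, hw⟩ := Fintype.card_pos_iff.1 h5
  have h6 : IsReal (w.comap (algebraMap k K)) := hw.comap _
  have h7 : 0 < nrRealPlaces k := by
    unfold nrRealPlaces
    exact Fintype.card_pos_iff.2 ⟨⟨_, h6⟩⟩
  have h8 : nrComplexPlaces k = 0 := by omega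
  exact nrComplexPlaces_eq_zero_iff.1 h8

theorem real_sup {k k' : IntermediateField ℚ (AlgebraicClosure ℚ)} (hr : IsTotallyReal k)
    (hr' : IsTotallyReal k') : IsTotallyReal ↥(k ⊔ k') := by
  have h1 : IsTotallyReal k.toSubfield := hr
  have h2 : IsTotallyReal k'.toSubfield := hr'
  have h0 : @Algebra.IsAlgebraic ℚ (AlgebraicClosure ℚ) _ _ DivisionRing.toRatAlgebra := by
    have e : (DivisionRing.toRatAlgebra : Algebra ℚ (AlgebraicClosure ℚ)) =
        AlgebraicClosure.instAlgebra ℚ := Subsingleton.elim _ _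
    rw [e]
    exact AlgebraicClosure.isAlgebraic ℚ
  have h3 : IsTotallyReal ↥(k.toSubfield ⊔ k'.toSubfield) := isTotallyReal_sup
  rw [← IntermediateField.sup_toSubfield] at h3
  exact h3

theorem qsm : QsmStmt := by
  intro X K hK k hk h2
  obtain ⟨hN, h4, hc, hX, -⟩ := hK
  have hkN := H20.numberField_of_le hk hN
  have hkr := real_sub hk hN hkN h4 hc h2
  refine ⟨⟨hkN, hkr, ?_⟩, fun k' hk' h2' => ?_⟩
  · have h1 := H20.sq_discr_le hk hN hkN h4 h2
    have h3 : (((discr k).natAbs ^ 2 : ℕ) : ℝ) ≤ ((discr K).natAbs : ℝ) := by exact_mod_cast h1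
    push_cast at h3 ⊢
    exact le_trans h3 (by simpa using hX)
  · by_contra hne
    have hkN' := H20.numberField_of_le hk' hN
    have hkr' := real_sub hk' hN hkN' h4 hc h2'
    have h5 := H20.sup_eq hN h4 hk hk' h2 h2' (Ne.symm hne)
    have h6 := real_sup hkr hkr'
    have h7 : ∀ (L : IntermediateField ℚ (AlgebraicClosure ℚ)), L = K → IsTotallyReal L →
        nrComplexPlaces K = 0 := by
      rintro L rfl h
      exact nrComplexPlaces_eq_zero_iff.2 h
    have h8 := h7 _ h5 h6
    omega

end Pool.Agent.LeoD.H59
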