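import Mathlib
import Pool.Agent.LeoD.QuarStmts

/-!
# LEOD, module QUAR: the quartic corollary
-/

set_option autoImplicit false

open NumberField NumberField.InfinitePlace IsDedekindDomain Module Filter
open Pool.Agent.Helper85_Leo Pool.Agent.LeoC Pool.Agent.LeoD

open scoped Classical

namespace Pool.Agent.LeoD.H59

/-- The facts over one real quadratic field. -/
lemma one_field (hqtr : QtrStmt) (hqrf : QrfStmt) (hql2 : Ql2Stmt) (hthd : ThdStmt) (d : ℕ)
    (hsq : Squarefree d) (hd : 1 < d) :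
    (∀ X : ℝ, {K | K ∈ Q4x X ∧ rq d ≤ K}.Finite) ∧
    (∃ c : ℝ, 0 < c ∧ ∀ᶠ X : ℝ in atTop, c * X ≤ ({K | K ∈ Q4x X ∧ rq d ≤ K}.ncard : ℝ)) ∧
    ∀ ε : ℝ, 0 < ε → ∀ᶠ X : ℝ in atTop,
      ({K | K ∈ Q4x X ∧ rq d ≤ K ∧ ∃ _ : NumberField K, ¬ LeopoldtAt K 3}.ncard : ℝ) ≤
        (1 / 2 + ε) * ({K | K ∈ Q4x X ∧ rq d ≤ K}.ncard : ℝ) := by
  obtain ⟨hNF, hfin, hreal, -, -, -⟩ := hqrf.2 d hsq hd
  have hleo : LeopoldtAt (rq d) 3 := hql2 (rq d) hfin hreal
  obtain ⟨h1, ⟨c, hc, h2⟩, h3⟩ := hthd (rq d) ∅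
  have htr := fun X => hqtr (rq d) hNF hfin hreal X (h1 X)
  have hun : un (∅ : Set {w : InfinitePlace (rq d) // IsReal w}) = 0 := by
    unfold un
    rw [Set.ncard_empty, nrComplexPlaces_eq_zero_iff.2 hreal]
  refine ⟨fun X => (htr X).1, ⟨c, hc, ?_⟩, fun ε hε => ?_⟩
  · filter_upwards [h2] with X hX
    rw [(htr X).2.1]
    exact hX
  · filter_upwards [h3 ε hε] with X hX
    rw [(htr X).2.1, (htr X).2.2]
    rw [hun] at hX
    have h4 : {K | K ∈ Qx (rq d) ∅ X ∧ ∃ _ : NumberField K, LeopoldtAt (rq d) 3 ∧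
        ¬ LeopoldtAt K 3} = {K | K ∈ Qx (rq d) ∅ X ∧ ∃ _ : NumberField K, ¬ LeopoldtAt K 3} := by
      ext K
      simp only [Set.mem_ofPred_eq, hleo, true_and]
    rw [h4] at hX
    norm_num at hX ⊢
    exact hX

/-- **QUAR**. -/
theorem quar (hqtl : QtlStmt) (hqtr : QtrStmt) (hqrf : QrfStmt) (hql2 : Ql2Stmt)
    (hqsq : QsqStmt) (hthd : ThdStmt) : QuarStmt := by
  have hone := one_field hqtr hqrf hql2 hthd
  -- every field contains some `rq d`
  have hcont : ∀ (X : ℝ) (K : IntermediateField ℚ (AlgebraicClosure ℚ)), K ∈ Q4x X →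
      ∃ d : ℕ, Squarefree d ∧ 1 < d ∧ rq d ≤ K ∧ d ≤ ⌊Real.sqrt X⌋₊ := by
    intro X K hK
    obtain ⟨_, _, _, _, k, hk, h2⟩ := id hK
    obtain ⟨hNF, hreal, hX⟩ := (hqsq X K hK).1 k hk h2
    obtain ⟨d, hsq, hd, rfl⟩ := hqrf.1 k h2 hNF hreal
    refine ⟨d, hsq, hd, hk, ?_⟩
    obtain ⟨_, -, -, hlow, -, -⟩ := hqrf.2 d hsq hd
    have hD : (d : ℝ) ≤ ((discr (rq d)).natAbs : ℝ) := by
      have h3 : (d : ℤ) ≤ ((discr (rq d)).natAbs : ℤ) := by
        rw [Int.natCast_natAbs]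
        exact hlow.trans (le_abs_self _)
      exact_mod_cast h3
    apply Nat.le_floor
    apply Real.le_sqrt_of_sq_le
    refine le_trans ?_ hX
    gcongr
  set TT : ℝ → Finset ℕ := fun X => (Finset.range (⌊Real.sqrt X⌋₊ + 1)).filter fun d =>
    Squarefree d ∧ 1 < d with hTT
  have hmemTT : ∀ X d, d ∈ TT X ↔ d ≤ ⌊Real.sqrt X⌋₊ ∧ Squarefree d ∧ 1 < d := by
    intro X d
    simp only [hTT, Finset.mem_filter, Finset.mem_range, Nat.lt_succ_iff]
  have hfinQ : ∀ X, (Q4x X).Finite := by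
    intro X
    have h1 : (⋃ d ∈ TT X, {K | K ∈ Q4x X ∧ rq d ≤ K}).Finite := by
      apply Set.Finite.biUnion (TT X).finite_toSet
      intro d hd
      rw [Finset.mem_coe, hmemTT] at hd
      exact (hone d hd.2.1 hd.2.2).1 X
    refine h1.subset fun K hK => ?_
    obtain ⟨d, hsq, hd, hle, hdX⟩ := hcont X K hK
    simp only [Set.mem_iUnion]
    exact ⟨d, (hmemTT X d).2 ⟨hdX, hsq, hd⟩, hK, hle⟩
  have hlow : ∃ c : ℝ, 0 < c ∧ ∀ᶠ X : ℝ in atTop, c * X ≤ ((Q4x X).ncard : ℝ) := by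
    obtain ⟨-, ⟨c, hc, h⟩, -⟩ := hone 2 Nat.prime_two.squarefree (by norm_num)
    refine ⟨c, hc, ?_⟩
    filter_upwards [h] with X hX
    refine hX.trans (Nat.cast_le.2 (Set.ncard_le_ncard (fun K hK => hK.1) (hfinQ X)))
  refine ⟨hfinQ, hlow, fun ε hε => ?_⟩
  obtain ⟨c, hc, hlow⟩ := hlow
  obtain ⟨D₀, hD₀⟩ := hqtl (c * ε / 3) (by positivity)
  set SD : Finset ℕ := (Finset.range (D₀ + 1)).filter fun d => Squarefree d ∧ 1 < d with hSD
  set TF : Finset (IntermediateField ℚ (AlgebraicClosure ℚ)) := SD.image rq with hTF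
  have hev : ∀ᶠ X : ℝ in atTop, ∀ d ∈ SD,
      ({K | K ∈ Q4x X ∧ rq d ≤ K ∧ ∃ _ : NumberField K, ¬ LeopoldtAt K 3}.ncard : ℝ) ≤
        (1 / 2 + ε / 3) * ({K | K ∈ Q4x X ∧ rq d ≤ K}.ncard : ℝ) := by
    rw [Filter.eventually_all_finset]
    intro d hd
    simp only [hSD, Finset.mem_filter] at hd
    exact (hone d hd.2.1 hd.2.2).2.2 (ε / 3) (by positivity)
  have hconst : ∀ᶠ X : ℝ in atTop, (1 / 2 + ε / 3) * (TF.card : ℝ) ^ 3 ≤ (c * ε / 3) * X := by
    filter_upwards [eventually_ge_atTop ((1 / 2 + ε / 3) * (TF.card : ℝ) ^ 3 / (c * ε / 3))]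
      with X hX
    rw [div_le_iff₀ (by positivity)] at hX
    linarith
  filter_upwards [hev, hconst, hlow, eventually_ge_atTop (0 : ℝ)] with X h1 h2 h3 hX0
  have hQf := hfinQ X
  set Q : Finset (IntermediateField ℚ (AlgebraicClosure ℚ)) := hQf.toFinset with hQ
  set Pb : IntermediateField ℚ (AlgebraicClosure ℚ) → Prop := fun K =>
    ∃ _ : NumberField K, ¬ LeopoldtAt K 3 with hPb
  have hQc : ((Q4x X).ncard : ℝ) = Q.card := by
    rw [hQ, Set.ncard_eq_toFinset_card _ hQf]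
  have hBc : ({K | K ∈ Q4x X ∧ Pb K}.ncard : ℝ) = (Q.filter Pb).card := by
    rw [← Set.ncard_coe_finset]
    congr 2
    ext K
    simp [hQ]
  have hAc : ∀ k, ({K | K ∈ Q4x X ∧ k ≤ K}.ncard : ℝ) = (Q.filter fun K => k ≤ K).card := by
    intro k
    rw [← Set.ncard_coe_finset]
    congr 2
    ext K
    simp [hQ]
  have hABc : ∀ k, ({K | K ∈ Q4x X ∧ k ≤ K ∧ Pb K}.ncard : ℝ) =
      (Q.filter fun K => k ≤ K ∧ Pb K).card := by
    intro k
    rw [← Set.ncard_coe_finset]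
    congr 2
    ext K
    simp [hQ]
  -- covering of the bad fields
  set TB : Finset ℕ := (TT X).filter fun d => D₀ < d with hTB
  have hcover : Q.filter Pb ⊆ (TF.biUnion fun k => Q.filter fun K => k ≤ K ∧ Pb K) ∪
      (TB.biUnion fun d => Q.filter fun K => rq d ≤ K) := by
    intro K hK
    rw [Finset.mem_filter] at hK
    obtain ⟨hKQ, hKb⟩ := hK
    have hKQ' : K ∈ Q4x X := by simpa [hQ] using hKQ
    obtain ⟨d, hsq, hd, hle, hdX⟩ := hcont X K hKQ'
    rw [Finset.mem_union]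
    by_cases hdD : d ≤ D₀
    · left
      rw [Finset.mem_biUnion]
      refine ⟨rq d, ?_, ?_⟩
      · rw [hTF, Finset.mem_image]
        exact ⟨d, by simp only [hSD, Finset.mem_filter, Finset.mem_range]; exact ⟨by omega, hsq, hd⟩,
          rfl⟩
      · rw [Finset.mem_filter]
        exact ⟨hKQ, hle, hKb⟩
    · right
      rw [Finset.mem_biUnion]
      refine ⟨d, ?_, ?_⟩
      · rw [hTB, Finset.mem_filter, hmemTT]
        exact ⟨⟨hdX, hsq, hd⟩, by omega⟩
      · rw [Finset.mem_filter]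
        exact ⟨hKQ, hle⟩
  have h4 : ((Q.filter Pb).card : ℝ) ≤ ∑ k ∈ TF, ((Q.filter fun K => k ≤ K ∧ Pb K).card : ℝ) +
      ∑ d ∈ TB, ((Q.filter fun K => rq d ≤ K).card : ℝ) := by
    have h5 := (Finset.card_le_card hcover).trans (Finset.card_union_le _ _)
    have h6 := h5.trans (add_le_add Finset.card_biUnion_le Finset.card_biUnion_le)
    exact_mod_cast h6
  -- the tail
  have h5 : ∑ d ∈ TB, ((Q.filter fun K => rq d ≤ K).card : ℝ) ≤ c * ε / 3 * X := by
    have h6 := hD₀ X TB hX0 (by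
      intro d hd
      rw [hTB, Finset.mem_filter, hmemTT] at hd
      exact ⟨hd.1.2.1, hd.1.2.2, hd.2⟩)
    refine le_trans (le_of_eq (Finset.sum_congr rfl fun d _ => ?_)) h6
    exact (hAc (rq d)).symm
  -- the small fields
  have h6 : ∑ k ∈ TF, ((Q.filter fun K => k ≤ K ∧ Pb K).card : ℝ) ≤
      (1 / 2 + ε / 3) * ∑ k ∈ TF, ((Q.filter fun K => k ≤ K).card : ℝ) := by
    rw [Finset.mul_sum]
    refine Finset.sum_le_sum fun k hk => ?_
    rw [hTF, Finset.mem_image] at hk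
    obtain ⟨d, hd, rfl⟩ := hk
    have h7 := h1 d hd
    rw [hAc, hABc] at h7
    exact h7
  -- overlap
  have h7 : ∑ k ∈ TF, (Q.filter fun K => k ≤ K).card ≤ Q.card + TF.card ^ 3 := by
    have h8 : ∑ k ∈ TF, (Q.filter fun K => k ≤ K).card =
        ∑ K ∈ Q, (TF.filter fun k => k ≤ K).card :=
      Finset.sum_card_bipartiteAbove_eq_sum_card_bipartiteBelow (r := fun k K => k ≤ K)
    rw [h8]
    set V : Finset (IntermediateField ℚ (AlgebraicClosure ℚ)) :=
      Q.filter fun K => 1 < (TF.filter fun k => k ≤ K).card with hV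
    have hVc : V.card ≤ TF.card ^ 2 := by
      have h9 : V ⊆ (TF ×ˢ TF).image fun p => p.1 ⊔ p.2 := by
        intro K hK
        rw [hV, Finset.mem_filter] at hK
        obtain ⟨hKQ, hK1⟩ := hK
        obtain ⟨k, hk, k', hk', hne⟩ := Finset.one_lt_card.1 hK1
        rw [Finset.mem_filter] at hk hk'
        have hKQ' : K ∈ Q4x X := by simpa [hQ] using hKQ
        have hdeg : ∀ k ∈ TF, finrank ℚ k = 2 := by
          intro k hk
          rw [hTF, Finset.mem_image] at hk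
          obtain ⟨d, hd, rfl⟩ := hk
          simp only [hSD, Finset.mem_filter] at hd
          obtain ⟨_, h, -⟩ := hqrf.2 d hd.2.1 hd.2.2
          exact h
        have h10 := (hqsq X K hKQ').2 k k' hk.2 hk'.2 (hdeg k hk.1) (hdeg k' hk'.1) hne
        rw [Finset.mem_image]
        exact ⟨(k, k'), Finset.mem_product.2 ⟨hk.1, hk'.1⟩, h10⟩
      refine (Finset.card_le_card h9).trans (Finset.card_image_le.trans ?_)
      rw [Finset.card_product, sq]
    have h9 : ∀ K ∈ Q, (TF.filter fun k => k ≤ K).card ≤ 1 + if K ∈ V then TF.card else 0 := by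
      intro K hK
      by_cases h10 : 1 < (TF.filter fun k => k ≤ K).card
      · have h11 : K ∈ V := by
          rw [hV, Finset.mem_filter]
          exact ⟨hK, h10⟩
        rw [if_pos h11]
        have := Finset.card_filter_le TF fun k => k ≤ K
        omega
      · omega
    calc ∑ K ∈ Q, (TF.filter fun k => k ≤ K).card
        ≤ ∑ K ∈ Q, (1 + if K ∈ V then TF.card else 0) := Finset.sum_le_sum h9
      _ = Q.card + V.card * TF.card := by
          rw [Finset.sum_add_distrib, Finset.sum_const, smul_eq_mul, mul_one, ← Finset.sum_filter,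
            Finset.sum_const, smul_eq_mul]
          congr 3
          ext K
          simp only [hV, Finset.mem_filter]
          tauto
      _ ≤ Q.card + TF.card ^ 2 * TF.card := by gcongr
      _ = Q.card + TF.card ^ 3 := by ring
  have h8 : ∑ k ∈ TF, ((Q.filter fun K => k ≤ K).card : ℝ) ≤ Q.card + (TF.card : ℝ) ^ 3 := by
    exact_mod_cast h7
  show ({K | K ∈ Q4x X ∧ Pb K}.ncard : ℝ) ≤ (1 / 2 + ε) * ((Q4x X).ncard : ℝ)
  rw [hQc] at h3 ⊢
  rw [hBc]
  have h9 : (0 : ℝ) ≤ 1 / 2 + ε / 3 := by positivity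
  have h10 : (1 / 2 + ε / 3) * ∑ k ∈ TF, ((Q.filter fun K => k ≤ K).card : ℝ) ≤
      (1 / 2 + ε / 3) * (Q.card + (TF.card : ℝ) ^ 3) := mul_le_mul_of_nonneg_left h8 h9
  have h11 : c * ε / 3 * X ≤ ε / 3 * Q.card := by
    calc c * ε / 3 * X = ε / 3 * (c * X) := by ring
      _ ≤ ε / 3 * Q.card := by gcongr
  nlinarith

end Pool.Agent.LeoD.H59
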