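import Mathlib
import Pool.Agent.LeoD.FieldStmts

/-!
# LEOD, module THD: the final theorem
-/

set_option autoImplicit false

open NumberField NumberField.InfinitePlace NumberField.mixedEmbedding IsDedekindDomain Module
  Filter
open Pool.Agent.Helper85_Leo Pool.Agent.LeoK Pool.Agent.LeoG Pool.Agent.LeoC Pool.Agent.LeoD

open scoped Classical

namespace Pool.Agent.LeoD.H59

lemma un_le {k : Type} [Field k] [NumberField k] (N : Set {w : InfinitePlace k // IsReal w}) :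
    0 ≤ (1 : ℝ) / (2 * 3 ^ un N) ∧ (1 : ℝ) / (2 * 3 ^ un N) ≤ 1 / 2 := by
  have h1 : (1 : ℝ) ≤ 3 ^ un N := one_le_pow₀ (by norm_num)
  constructor
  · positivity
  · rw [div_le_div_iff₀ (by positivity) (by norm_num)]
    linarith

/-- **THD**. -/
theorem thd (hpar : ParStmt) (hqua : QuaStmt) (hstd : StdStmt) (hcntb : CntbStmt)
    (hfra : Pool.Agent.LeoC.FraStmt) : ThdStmt := by
  intro k _ _ N
  obtain ⟨Φ⟩ := hfra k
  obtain ⟨h, hH, hS⟩ := hstd k (20 * finrank ℚ k)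
  have hc := hcntb k (20 * finrank ℚ k) h le_rfl hH Φ N
  obtain ⟨J, _, B, E, ρ, w, hJ, hw, hρ, hX⟩ := hpar k Φ N fun B E => (hc B E).1
  obtain ⟨-, hq2, -⟩ := hqua k
  have hw' : (0 : ℝ) < w := by exact_mod_cast hw
  obtain ⟨hu0, hu1⟩ := un_le N
  set c₀ : ℝ := 1 / (2 * 3 ^ un N) with hc₀
  -- notation
  set F : J → ℝ → Set (𝓞 k) := fun j Z => Fam Φ N (B j) (E j) Z with hF
  set S : J → ℝ → Set (𝓞 k) := fun j Z => {m | m ∈ F j Z ∧ ∃ x : k, x ^ 2 = 3 * (m : k)} with hSd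
  set bad : J → ℝ → Set (𝓞 k) := fun j Z => {m | m ∈ Fam Φ N (B j) (E j) Z ∧
    ((∃ x : k, x ^ 2 = -(m : k)) ∨ (∃ x : k, x ^ 2 = 3 * (m : k)) ∨
      ∃ F : Q4 (𝓞 k), GIrr F ∧ mm F = ((B j).kap : 𝓞 k) * m ∧
        Typ (B j) (20 * finrank ℚ k) h F)} with hbad
  have hFfin : ∀ j Z, (F j Z).Finite := fun j Z => (hc (B j) (E j)).1 Z
  have hSF : ∀ j Z, S j Z ⊆ F j Z := fun j Z m hm => hm.1
  have hSbad : ∀ j Z, S j Z ⊆ bad j Z := fun j Z m hm => ⟨hm.1, Or.inr (Or.inl hm.2)⟩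
  have hbadF : ∀ j Z, bad j Z ⊆ F j Z := fun j Z m hm => hm.1
  -- the set of nonsquares
  have hnon : ∀ j Z, {m | m ∈ Fam Φ N (B j) (E j) Z ∧ (∀ x : k, x ^ 2 ≠ 3 * (m : k)) ∧ True} =
      F j Z \ S j Z := by
    intro j Z
    ext m
    simp only [hF, hSd, Set.mem_ofPred_eq, Set.mem_sdiff]
    constructor
    · rintro ⟨h1, h2, -⟩
      exact ⟨h1, fun ⟨_, x, hx⟩ => h2 x hx⟩
    · rintro ⟨h1, h2⟩
      exact ⟨h1, fun x hx => h2 ⟨h1, x, hx⟩, trivial⟩
  have hcardsub : ∀ {A C : Set (𝓞 k)}, C.Finite → A ⊆ C →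
      ((C \ A).ncard : ℝ) = (C.ncard : ℝ) - A.ncard := by
    intro A C hC hAC
    have h1 := Set.ncard_sdiff_add_ncard_of_subset hAC hC
    have h2 : (((C \ A).ncard + A.ncard : ℕ) : ℝ) = C.ncard := by rw [h1]
    push_cast at h2
    linarith
  -- the total count
  have htot : ∀ X : ℝ, (w : ℝ) * ((Qx k N X).ncard : ℝ) =
      ∑ j, (((F j (ρ j * X)).ncard : ℝ) - (S j (ρ j * X)).ncard) := by
    intro X
    have h1 := (hX X).2 fun _ => True
    have h2 : {K | K ∈ Qx k N X ∧ True} = Qx k N X := by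
      ext K
      simp
    rw [h2] at h1
    have h3 := congrArg (Nat.cast : ℕ → ℝ) h1
    push_cast at h3
    rw [h3]
    refine Finset.sum_congr rfl fun j _ => ?_
    rw [hnon, hcardsub (hFfin _ _) (hSF _ _)]
  refine ⟨fun X => (hX X).1, ?_, ?_⟩
  · -- lower bound
    obtain ⟨j₀⟩ := hJ
    obtain ⟨-, ⟨c, hc0, hlow⟩, hb⟩ := hc (B j₀) (E j₀)
    refine ⟨c * ρ j₀ / (4 * w), by have := hρ j₀; positivity, ?_⟩
    have ht : Tendsto (fun X : ℝ => ρ j₀ * X) atTop atTop :=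
      tendsto_id.const_mul_atTop (hρ j₀)
    filter_upwards [ht.eventually (hlow.and (hb (1 / 4) (by norm_num))),
      eventually_ge_atTop (0 : ℝ)] with X hX1 hX0
    obtain ⟨h1, h2⟩ := hX1
    have h3 : ((S j₀ (ρ j₀ * X)).ncard : ℝ) ≤ (bad j₀ (ρ j₀ * X)).ncard := by
      exact_mod_cast Set.ncard_le_ncard (hSbad _ _) ((hFfin _ _).subset (hbadF _ _))
    have h4 : ((bad j₀ (ρ j₀ * X)).ncard : ℝ) ≤
        (c₀ + 1 / 4) * ((F j₀ (ρ j₀ * X)).ncard : ℝ) := h2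
    have h5 : c * (ρ j₀ * X) ≤ ((F j₀ (ρ j₀ * X)).ncard : ℝ) := h1
    have h6 : ((F j₀ (ρ j₀ * X)).ncard : ℝ) - (S j₀ (ρ j₀ * X)).ncard ≤
        (w : ℝ) * ((Qx k N X).ncard : ℝ) := by
      rw [htot]
      refine Finset.single_le_sum (f := fun j => ((F j (ρ j * X)).ncard : ℝ) -
        (S j (ρ j * X)).ncard) (fun j _ => ?_) (Finset.mem_univ j₀)
      rw [← hcardsub (hFfin _ _) (hSF _ _)]
      positivity
    have h7 : (0 : ℝ) ≤ ((F j₀ (ρ j₀ * X)).ncard : ℝ) := by positivity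
    have h8 : c * ρ j₀ / 4 * X ≤ (w : ℝ) * ((Qx k N X).ncard : ℝ) := by
      nlinarith
    rw [show c * ρ j₀ / (4 * w) * X = (c * ρ j₀ / 4 * X) / w by field_simp, div_le_iff₀ hw']
    linarith
  · intro ε hε
    set ε' : ℝ := min ε (1 / 2) with hε'
    have hε'0 : 0 < ε' := lt_min hε (by norm_num)
    have hall : ∀ᶠ X : ℝ in atTop, ∀ j, ((bad j (ρ j * X)).ncard : ℝ) ≤
        (c₀ + ε') * ((F j (ρ j * X)).ncard : ℝ) := by
      rw [eventually_all]
      intro j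
      have ht : Tendsto (fun X : ℝ => ρ j * X) atTop atTop :=
        tendsto_id.const_mul_atTop (hρ j)
      exact ht.eventually ((hc (B j) (E j)).2.2 ε' hε'0)
    filter_upwards [hall] with X hXj
    set P : IntermediateField k (AlgebraicClosure k) → Prop := fun K =>
      ∃ _ : NumberField K, LeopoldtAt k 3 ∧ ¬ LeopoldtAt K 3 with hP
    have h1 := (hX X).2 P
    have h3 := congrArg (Nat.cast : ℕ → ℝ) h1
    push_cast at h3
    -- the terms
    have h4 : ∀ j, (({m | m ∈ Fam Φ N (B j) (E j) (ρ j * X) ∧ (∀ x : k, x ^ 2 ≠ 3 * (m : k)) ∧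
        P (sqF (3 * (m : k)))}.ncard : ℕ) : ℝ) ≤
        ((bad j (ρ j * X)).ncard : ℝ) - (S j (ρ j * X)).ncard := by
      intro j
      rw [← hcardsub ((hFfin _ _).subset (hbadF _ _)) (hSbad _ _)]
      norm_cast
      apply Set.ncard_le_ncard _ (((hFfin _ _).subset (hbadF _ _)).subset Set.sdiff_subset)
      rintro m ⟨h5, h6, hNF, h7, h8⟩
      refine ⟨⟨h5, ?_⟩, fun ⟨_, x, hx⟩ => h6 x hx⟩
      by_cases h9 : ∃ x : k, x ^ 2 = -(m : k)
      · exact Or.inl h9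
      · obtain ⟨-, h2m, r, hr⟩ := hq2 _ h6
        exact Or.inr (Or.inr (hS (sqF (3 * (m : k))) (B j) m r h2m hr h6
          (fun x hx => h9 ⟨x, hx⟩) h5.2.2.2.1 h7 h8))
    have h5 : (w : ℝ) * (({K | K ∈ Qx k N X ∧ P K}.ncard : ℕ) : ℝ) ≤
        (w : ℝ) * ((c₀ + ε') * ((Qx k N X).ncard : ℝ)) := by
      rw [h3]
      calc _ ≤ ∑ j, (((bad j (ρ j * X)).ncard : ℝ) - (S j (ρ j * X)).ncard) :=
            Finset.sum_le_sum fun j _ => h4 j
        _ ≤ ∑ j, (c₀ + ε') * (((F j (ρ j * X)).ncard : ℝ) - (S j (ρ j * X)).ncard) := by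
            refine Finset.sum_le_sum fun j _ => ?_
            have h6 := hXj j
            have h7 : (0 : ℝ) ≤ ((S j (ρ j * X)).ncard : ℝ) := by positivity
            have h8 : ε' ≤ 1 / 2 := min_le_right _ _
            nlinarith
        _ = (w : ℝ) * ((c₀ + ε') * ((Qx k N X).ncard : ℝ)) := by
            rw [← Finset.mul_sum, ← htot]
            ring
    have h6 := le_of_mul_le_mul_left h5 hw'
    refine h6.trans ?_
    have h7 : ε' ≤ ε := min_le_left _ _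
    have h8 : (0 : ℝ) ≤ ((Qx k N X).ncard : ℝ) := by positivity
    nlinarith

end Pool.Agent.LeoD.H59
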